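import Pool.Agent.Y959.Her.Core

set_option autoImplicit false

/-!
# From large values to `ℓ^q` norms
-/

namespace Pool.Agent.Y959.Her

open Finset Pool.Agent.TH705.DL

open Classical in
/-- dyadic summation -/
theorem dyadic {ι : Type*} (W : Finset ι) (d : ι → ℝ) (V0 A0 : ℝ) (hV0 : 0 < V0) (J : ℕ)
    (hmax : ∀ i ∈ W, d i ≤ 2 ^ J * V0)
    (h : ∀ V, V0 ≤ V → V ^ 2 * ((W.filter (fun i => V ≤ d i)).card : ℝ) ≤ A0) :
    ∑ i ∈ W.filter (fun i => V0 ≤ d i), d i ^ 2 ≤ 4 * A0 * (J + 1) := by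
  have h1 : ∀ i ∈ W.filter (fun i => V0 ≤ d i), d i ^ 2 ≤
      ∑ j ∈ range (J + 1), if 2 ^ j * V0 ≤ d i then 4 * (2 ^ j * V0) ^ 2 else 0 := by
    intro i hi
    rw [mem_filter] at hi
    have hd0 : 0 ≤ d i := hV0.le.trans hi.2
    set S := (range (J + 1)).filter (fun j => 2 ^ j * V0 ≤ d i) with hS
    have h0 : 0 ∈ S := by
      rw [hS, mem_filter]
      exact ⟨mem_range.2 (by omega), by simpa using hi.2⟩
    set j := S.max' ⟨0, h0⟩ with hj
    have hjS : j ∈ S := max'_mem _ _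
    rw [hS, mem_filter, mem_range] at hjS
    have h2 : d i ≤ 2 * (2 ^ j * V0) := by
      by_contra hc
      push Not at hc
      rcases Nat.lt_or_ge (j + 1) (J + 1) with hlt | hge
      · have h3 : j + 1 ∈ S := by
          rw [hS, mem_filter, mem_range]
          refine ⟨hlt, ?_⟩
          rw [pow_succ]
          linarith
        have := le_max' S (j + 1) h3
        omega
      · have hjJ : j = J := by omega
        have := hmax i hi.1
        rw [hjJ] at hc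
        have : 0 < 2 ^ J * V0 := by positivity
        linarith
    calc d i ^ 2 ≤ (2 * (2 ^ j * V0)) ^ 2 := pow_le_pow_left₀ hd0 h2 2
      _ = if 2 ^ j * V0 ≤ d i then 4 * (2 ^ j * V0) ^ 2 else 0 := by
          rw [if_pos hjS.2]; ring
      _ ≤ _ := single_le_sum (f := fun j => if 2 ^ j * V0 ≤ d i then 4 * (2 ^ j * V0) ^ 2 else 0)
          (fun j _ => by split_ifs <;> positivity) (mem_range.2 hjS.1)
  refine (sum_le_sum h1).trans ?_
  rw [sum_comm]
  calc ∑ j ∈ range (J + 1), ∑ i ∈ W.filter (fun i => V0 ≤ d i),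
        (if 2 ^ j * V0 ≤ d i then 4 * (2 ^ j * V0) ^ 2 else 0)
      ≤ ∑ j ∈ range (J + 1), 4 * A0 := by
        apply sum_le_sum
        intro j _
        rw [← sum_filter, sum_const, nsmul_eq_mul]
        have h2 : (((W.filter (fun i => V0 ≤ d i)).filter (fun i => 2 ^ j * V0 ≤ d i)).card : ℝ) ≤
            ((W.filter (fun i => 2 ^ j * V0 ≤ d i)).card : ℝ) := by
          exact_mod_cast card_le_card (filter_subset_filter _ (filter_subset _ _))
        have h3 := h (2 ^ j * V0) (by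
          have : (1 : ℝ) ≤ 2 ^ j := one_le_pow₀ (by norm_num)
          nlinarith)
        calc (((W.filter (fun i => V0 ≤ d i)).filter (fun i => 2 ^ j * V0 ≤ d i)).card : ℝ) *
              (4 * (2 ^ j * V0) ^ 2)
            ≤ ((W.filter (fun i => 2 ^ j * V0 ≤ d i)).card : ℝ) * (4 * (2 ^ j * V0) ^ 2) :=
              mul_le_mul_of_nonneg_right h2 (by positivity)
          _ = 4 * ((2 ^ j * V0) ^ 2 * ((W.filter (fun i => 2 ^ j * V0 ≤ d i)).card : ℝ)) := by ring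
          _ ≤ 4 * A0 := by linarith
    _ = 4 * A0 * (J + 1) := by
        rw [sum_const, card_range, nsmul_eq_mul]
        push_cast
        ring

theorem log_nat (ε : ℝ) (hε : 0 < ε) (N : ℕ) (hN : 1 ≤ N) :
    ((Nat.log 2 (2 * N) : ℕ) : ℝ) + 2 ≤ (3 + 2 / ε) * (N : ℝ) ^ (2 * ε) := by
  have hN1 : (1 : ℝ) ≤ N := by exact_mod_cast hN
  have hN0 : (0 : ℝ) < N := by linarith
  have h1 : ((Nat.log 2 (2 * N) : ℕ) : ℝ) ≤ 1 + 2 * Real.log N := by
    have h2 : 2 ^ Nat.log 2 (2 * N) ≤ 2 * N := Nat.pow_log_le_self 2 (by omega)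
    have h3 : (2 : ℝ) ^ Nat.log 2 (2 * N) ≤ 2 * N := by exact_mod_cast h2
    have h4 := Real.log_le_log (by positivity) h3
    rw [Real.log_pow, Real.log_mul (by norm_num) hN0.ne'] at h4
    have hl2 : (1 / 2 : ℝ) ≤ Real.log 2 := by
      have := Real.log_two_gt_d9
      linarith
    have hlN : 0 ≤ Real.log N := Real.log_nonneg hN1
    have h5 : (((Nat.log 2 (2 * N) : ℕ) : ℝ) - 1) * Real.log 2 ≤ Real.log N := by linarith
    by_contra hc
    push Not at hc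
    nlinarith
  have h2 : Real.log N ≤ (N : ℝ) ^ (2 * ε) / (2 * ε) := Real.log_le_rpow_div hN0.le (by positivity)
  have h3 : (1 : ℝ) ≤ (N : ℝ) ^ (2 * ε) := Real.one_le_rpow hN1 (by positivity)
  have h4 : 2 * Real.log N ≤ 1 / ε * (N : ℝ) ^ (2 * ε) := by
    calc 2 * Real.log N ≤ 2 * ((N : ℝ) ^ (2 * ε) / (2 * ε)) := by linarith
      _ = 1 / ε * (N : ℝ) ^ (2 * ε) := by field_simp
  have h5 : 0 ≤ 1 / ε * (N : ℝ) ^ (2 * ε) := by positivity
  calc ((Nat.log 2 (2 * N) : ℕ) : ℝ) + 2 ≤ 3 + 1 / ε * (N : ℝ) ^ (2 * ε) := by linarith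
    _ ≤ 3 * (N : ℝ) ^ (2 * ε) + 2 * (1 / ε * (N : ℝ) ^ (2 * ε)) := by linarith
    _ = (3 + 2 / ε) * (N : ℝ) ^ (2 * ε) := by ring

/-- the `ℓ^q` bounds -/
theorem lq_of_good (ε K0 : ℝ) (hε : 0 < ε) (hK0 : 0 < K0) :
    ∃ K : ℝ, 0 < K ∧ ∀ (N : ℕ) (ι : Type) [Fintype ι] (t : ι → ℝ), 1 ≤ N →
      Good (Icc N (2 * N)) (K0 * ((2 * N : ℕ) : ℝ) ^ ε) t →
      ∀ b : ℕ → ℂ, (∀ n ∈ Icc N (2 * N), ‖b n‖ ≤ 1) → ∀ (W : Finset ι) (q : ℝ), 2 ≤ q →
        ∑ i ∈ W, ‖∑ n ∈ Icc N (2 * N), b n * ph (t i) n‖ ^ q ≤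
          (K * (N : ℝ) ^ ε) ^ q * ((N : ℝ) ^ q + W.card * (N : ℝ) ^ (q / 2)) := by
  classical
  set K1 : ℝ := max K0 1 * (2 : ℝ) ^ ε * Real.sqrt 2 with hK1
  have hm1 : 1 ≤ max K0 1 := le_max_right _ _
  have hmK : K0 ≤ max K0 1 := le_max_left _ _
  have hK1p : 0 < K1 := by positivity
  set K2 : ℝ := 2 * Real.sqrt (64 * (3 + 2 / ε)) with hK2
  have hK2p : 0 < K2 := by positivity
  refine ⟨K1 + K2, by positivity, ?_⟩
  intro N ι _ t hN hG b hb W q hq
  have hN1 : (1 : ℝ) ≤ N := by exact_mod_cast hN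
  have hN0 : (0 : ℝ) < N := by linarith
  set d : ι → ℝ := fun i => ‖∑ n ∈ Icc N (2 * N), b n * ph (t i) n‖ with hd
  have hcard : ((Icc N (2 * N)).card : ℝ) ≤ 2 * N := by
    rw [Nat.card_Icc]
    have : 2 * N + 1 - N ≤ 2 * N := by omega
    exact_mod_cast this
  have hS : ∑ n ∈ Icc N (2 * N), ‖b n‖ ^ 2 ≤ 2 * N := by
    calc ∑ n ∈ Icc N (2 * N), ‖b n‖ ^ 2 ≤ ∑ n ∈ Icc N (2 * N), (1 : ℝ) :=
          sum_le_sum fun n hn => pow_le_one₀ (norm_nonneg _) (hb n hn)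
      _ = ((Icc N (2 * N)).card : ℝ) := by simp
      _ ≤ 2 * N := hcard
  have hS0 : 0 ≤ ∑ n ∈ Icc N (2 * N), ‖b n‖ ^ 2 := sum_nonneg fun _ _ => by positivity
  have hd0 : ∀ i, 0 ≤ d i := fun i => norm_nonneg _
  have hdmax : ∀ i, d i ≤ 2 * N := by
    intro i
    refine (norm_sum_le _ _).trans ?_
    calc ∑ n ∈ Icc N (2 * N), ‖b n * ph (t i) n‖ ≤ ∑ n ∈ Icc N (2 * N), (1 : ℝ) := by
          apply sum_le_sum
          intro n hn
          rw [norm_mul, ph_norm, mul_one]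
          exact hb n hn
      _ = ((Icc N (2 * N)).card : ℝ) := by simp
      _ ≤ 2 * N := hcard
  set V0 : ℝ := K1 * (N : ℝ) ^ ε * Real.sqrt N with hV0
  have hV0p : 0 < V0 := by positivity
  have h2N : ((2 * N : ℕ) : ℝ) ^ ε = (2 : ℝ) ^ ε * (N : ℝ) ^ ε := by
    push_cast
    rw [Real.mul_rpow (by norm_num) hN0.le]
  have hV0' : V0 = max K0 1 * ((2 * N : ℕ) : ℝ) ^ ε * Real.sqrt (2 * N) := by
    rw [hV0, hK1, h2N, Real.sqrt_mul (by norm_num)]
    ring
  have hV1 : 1 ≤ V0 := by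
    rw [hV0']
    have e1 : (1 : ℝ) ≤ ((2 * N : ℕ) : ℝ) ^ ε := Real.one_le_rpow (by push_cast; linarith) hε.le
    have e2 : (1 : ℝ) ≤ Real.sqrt (2 * N) := by
      rw [Real.one_le_sqrt]; linarith
    have e3 : 1 ≤ max K0 1 * ((2 * N : ℕ) : ℝ) ^ ε := one_le_mul_of_one_le_of_one_le hm1 e1
    exact one_le_mul_of_one_le_of_one_le e3 e2
  have hlv : ∀ V, V0 ≤ V → V ^ 2 * ((W.filter (fun i => V ≤ d i)).card : ℝ) ≤ 64 * (N : ℝ) ^ 2 := by
    intro V hV
    have h1 := hG b V (by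
      refine le_trans ?_ hV
      rw [hV0']
      have e : Real.sqrt (∑ n ∈ Icc N (2 * N), ‖b n‖ ^ 2) ≤ Real.sqrt (2 * N) := Real.sqrt_le_sqrt hS
      have e0 : (0 : ℝ) ≤ ((2 * N : ℕ) : ℝ) ^ ε := by positivity
      exact mul_le_mul (mul_le_mul_of_nonneg_right hmK e0) e (Real.sqrt_nonneg _) (by positivity))
      (W.filter (fun i => V ≤ d i)) (fun i hi => (mem_filter.1 hi).2)
    refine h1.trans ?_
    calc 16 * ((Icc N (2 * N)).card : ℝ) * ∑ n ∈ Icc N (2 * N), ‖b n‖ ^ 2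
        ≤ 16 * (2 * N) * (2 * N) := by
          apply mul_le_mul (by linarith) hS hS0 (by positivity)
      _ = 64 * (N : ℝ) ^ 2 := by ring
  set J : ℕ := Nat.log 2 (2 * N) + 1 with hJ
  have hJmax : ∀ i ∈ W, d i ≤ 2 ^ J * V0 := by
    intro i _
    have h1 : 2 * N < 2 ^ J := Nat.lt_pow_succ_log_self (by norm_num) _
    have h2 : (2 * N : ℝ) ≤ 2 ^ J := by exact_mod_cast h1.le
    have h3 : (0 : ℝ) < 2 ^ J := by positivity
    calc d i ≤ 2 * N := hdmax i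
      _ ≤ 2 ^ J := h2
      _ ≤ 2 ^ J * V0 := by nlinarith
  have hl2 := dyadic W d V0 (64 * (N : ℝ) ^ 2) hV0p J hJmax hlv
  have hJ1 : (J : ℝ) + 1 ≤ (3 + 2 / ε) * (N : ℝ) ^ (2 * ε) := by
    have := log_nat ε hε N hN
    rw [hJ]
    push_cast
    linarith
  -- the two parts
  have hq0 : 0 < q := by linarith
  rw [← sum_filter_add_sum_filter_not W (fun i => V0 ≤ d i) (fun i => d i ^ q)]
  have hbig : ∑ i ∈ W.filter (fun i => V0 ≤ d i), d i ^ q ≤ (K2 * (N : ℝ) ^ ε) ^ q * (N : ℝ) ^ q := by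
    have h1 : ∀ i ∈ W.filter (fun i => V0 ≤ d i), d i ^ q ≤ (2 * (N : ℝ)) ^ (q - 2) * d i ^ 2 := by
      intro i hi
      have hdi : 0 < d i := lt_of_lt_of_le hV0p (mem_filter.1 hi).2
      have e : d i ^ q = d i ^ (q - 2) * d i ^ 2 := by
        rw [← Real.rpow_natCast (d i) 2, ← Real.rpow_add hdi]
        congr 1
        push_cast
        ring
      rw [e]
      exact mul_le_mul_of_nonneg_right (Real.rpow_le_rpow hdi.le (hdmax i) (by linarith)) (by positivity)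
    refine (sum_le_sum h1).trans ?_
    rw [← mul_sum]
    have e1 : (2 * (N : ℝ)) ^ (q - 2) = (2 * (N : ℝ)) ^ q / (4 * (N : ℝ) ^ 2) := by
      rw [Real.rpow_sub (by positivity)]
      congr 1
      have := Real.rpow_natCast (2 * (N : ℝ)) 2
      push_cast at this
      rw [this]
      ring
    have e2 : 4 * (64 * (N : ℝ) ^ 2) * ((J : ℝ) + 1) ≤
        4 * (64 * (N : ℝ) ^ 2) * ((3 + 2 / ε) * (N : ℝ) ^ (2 * ε)) :=
      mul_le_mul_of_nonneg_left hJ1 (by positivity)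
    calc (2 * (N : ℝ)) ^ (q - 2) * ∑ i ∈ W.filter (fun i => V0 ≤ d i), d i ^ 2
        ≤ (2 * (N : ℝ)) ^ (q - 2) * (4 * (64 * (N : ℝ) ^ 2) * ((3 + 2 / ε) * (N : ℝ) ^ (2 * ε))) :=
          mul_le_mul_of_nonneg_left (hl2.trans e2) (by positivity)
      _ = (2 * (N : ℝ)) ^ q * (64 * (3 + 2 / ε) * (N : ℝ) ^ (2 * ε)) := by
          rw [e1]
          field_simp
      _ ≤ (2 * (N : ℝ)) ^ q * ((Real.sqrt (64 * (3 + 2 / ε)) * (N : ℝ) ^ ε) ^ q) := by
          apply mul_le_mul_of_nonneg_left _ (by positivity)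
          set x : ℝ := Real.sqrt (64 * (3 + 2 / ε)) * (N : ℝ) ^ ε with hx
          have hx1 : 1 ≤ x := by
            have a1 : 1 ≤ Real.sqrt (64 * (3 + 2 / ε)) := by
              rw [Real.one_le_sqrt]
              have : 0 < 2 / ε := by positivity
              linarith
            exact one_le_mul_of_one_le_of_one_le a1 (Real.one_le_rpow hN1 hε.le)
          have hx2 : x ^ 2 = 64 * (3 + 2 / ε) * (N : ℝ) ^ (2 * ε) := by
            rw [hx, mul_pow, Real.sq_sqrt (by positivity)]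
            congr 1
            rw [← Real.rpow_natCast, ← Real.rpow_mul hN0.le]
            congr 1
            push_cast
            ring
          rw [← hx2, ← Real.rpow_natCast x 2]
          exact Real.rpow_le_rpow_of_exponent_le hx1 (by push_cast; exact hq)
      _ = (K2 * (N : ℝ) ^ ε) ^ q * (N : ℝ) ^ q := by
          rw [← Real.mul_rpow (by positivity) (by positivity),
            ← Real.mul_rpow (by positivity) (by positivity)]
          congr 1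
          rw [hK2]
          ring
  have hsmall : ∑ i ∈ W.filter (fun i => ¬ V0 ≤ d i), d i ^ q ≤
      (K1 * (N : ℝ) ^ ε) ^ q * (W.card * (N : ℝ) ^ (q / 2)) := by
    calc ∑ i ∈ W.filter (fun i => ¬ V0 ≤ d i), d i ^ q
        ≤ ∑ i ∈ W.filter (fun i => ¬ V0 ≤ d i), V0 ^ q := by
          apply sum_le_sum
          intro i hi
          have := (mem_filter.1 hi).2
          push Not at this
          exact Real.rpow_le_rpow (hd0 i) this.le hq0.le
      _ = ((W.filter (fun i => ¬ V0 ≤ d i)).card : ℝ) * V0 ^ q := by rw [sum_const, nsmul_eq_mul]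
      _ ≤ W.card * V0 ^ q := by
          apply mul_le_mul_of_nonneg_right _ (by positivity)
          exact_mod_cast card_filter_le _ _
      _ = (K1 * (N : ℝ) ^ ε) ^ q * (W.card * (N : ℝ) ^ (q / 2)) := by
          rw [hV0, Real.mul_rpow (by positivity) (Real.sqrt_nonneg _), Real.sqrt_eq_rpow,
            ← Real.rpow_mul hN0.le]
          have : (1 / 2 : ℝ) * q = q / 2 := by ring
          rw [this]
          ring
  have hK1' : (K1 * (N : ℝ) ^ ε) ^ q ≤ ((K1 + K2) * (N : ℝ) ^ ε) ^ q := by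
    apply Real.rpow_le_rpow (by positivity) _ hq0.le
    apply mul_le_mul_of_nonneg_right _ (by positivity)
    linarith
  have hK2' : (K2 * (N : ℝ) ^ ε) ^ q ≤ ((K1 + K2) * (N : ℝ) ^ ε) ^ q := by
    apply Real.rpow_le_rpow (by positivity) _ hq0.le
    apply mul_le_mul_of_nonneg_right _ (by positivity)
    linarith
  have hNq : (0 : ℝ) ≤ (N : ℝ) ^ q := by positivity
  have hWq : (0 : ℝ) ≤ W.card * (N : ℝ) ^ (q / 2) := by positivity
  calc ∑ i ∈ W.filter (fun i => V0 ≤ d i), d i ^ q + ∑ i ∈ W.filter (fun i => ¬ V0 ≤ d i), d i ^ q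
      ≤ (K2 * (N : ℝ) ^ ε) ^ q * (N : ℝ) ^ q + (K1 * (N : ℝ) ^ ε) ^ q * (W.card * (N : ℝ) ^ (q / 2)) :=
        add_le_add hbig hsmall
    _ ≤ ((K1 + K2) * (N : ℝ) ^ ε) ^ q * (N : ℝ) ^ q +
        ((K1 + K2) * (N : ℝ) ^ ε) ^ q * (W.card * (N : ℝ) ^ (q / 2)) :=
        add_le_add (mul_le_mul_of_nonneg_right hK2' hNq) (mul_le_mul_of_nonneg_right hK1' hWq)
    _ = _ := by ring

end Pool.Agent.Y959.Her
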