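import Mathlib

set_option autoImplicit false

/-!
# Signed sums of vectors with few exceptional scalar products (deterministic part)
-/

namespace Pool.Agent.Y959.Her

open Finset

variable {ι E : Type*} [DecidableEq ι] [NormedAddCommGroup E] [InnerProductSpace ℂ E]

/-- twice the sum over all subsets of the partial sums -/
theorem two_sum_powerset (y : ι → E) (W : Finset ι) :
    (2 : ℂ) • ∑ S ∈ W.powerset, ∑ i ∈ S, y i = ((2 : ℂ) ^ W.card) • ∑ i ∈ W, y i := by
  induction W using Finset.induction_on with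
  | empty => simp
  | insert a W ha ih =>
    rw [sum_powerset_insert ha, card_insert_of_notMem ha, sum_insert ha]
    have h1 : ∀ S ∈ W.powerset, ∑ i ∈ insert a S, y i = y a + ∑ i ∈ S, y i := by
      intro S hS
      rw [sum_insert (fun h => ha (mem_powerset.1 hS h))]
    rw [sum_congr rfl h1, sum_add_distrib, sum_const, card_powerset]
    have h2 : ((2 ^ W.card : ℕ) • y a : E) = ((2 : ℂ) ^ W.card) • y a := by
      rw [← Nat.cast_smul_eq_nsmul ℂ]
      push_cast
      rfl
    rw [h2]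
    have h3 : (2 : ℂ) • (∑ S ∈ W.powerset, ∑ i ∈ S, y i +
        ((2 : ℂ) ^ W.card • y a + ∑ S ∈ W.powerset, ∑ i ∈ S, y i)) =
        (2 : ℂ) • ((2 : ℂ) • ∑ S ∈ W.powerset, ∑ i ∈ S, y i) + (2 : ℂ) • ((2 : ℂ) ^ W.card • y a) := by
      rw [two_smul ℂ (∑ S ∈ W.powerset, ∑ i ∈ S, y i), smul_add, smul_add, smul_add]
      abel
    rw [h3, ih, pow_succ]
    simp only [smul_add, smul_smul]
    rw [mul_comm (2 : ℂ) ((2 : ℂ) ^ W.card)]
    abel

/-- the decoupling identity -/
theorem decouple (y : ι → E) (W : Finset ι) :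
    (4 : ℂ) * ∑ S ∈ W.powerset, inner ℂ (∑ i ∈ W \ S, y i) (∑ i ∈ S, y i) =
      (2 : ℂ) ^ W.card * (inner ℂ (∑ i ∈ W, y i) (∑ i ∈ W, y i) - ∑ i ∈ W, inner ℂ (y i) (y i)) := by
  induction W using Finset.induction_on with
  | empty => simp
  | insert a W ha ih =>
    have hG := two_sum_powerset y W
    have hGc : (2 : ℂ) • ∑ S ∈ W.powerset, ∑ i ∈ W \ S, y i = ((2 : ℂ) ^ W.card) • ∑ i ∈ W, y i := by
      rw [← hG]
      congr 1
      refine sum_nbij' (fun S => W \ S) (fun S => W \ S) ?_ ?_ ?_ ?_ ?_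
      · intro S _; exact mem_powerset.2 sdiff_subset
      · intro S _; exact mem_powerset.2 sdiff_subset
      · intro S hS; exact Finset.sdiff_sdiff_eq_self (mem_powerset.1 hS)
      · intro S hS; exact Finset.sdiff_sdiff_eq_self (mem_powerset.1 hS)
      · intro S _; rfl
    rw [sum_powerset_insert ha, card_insert_of_notMem ha]
    have h1 : ∀ S ∈ W.powerset, inner ℂ (∑ i ∈ insert a W \ S, y i) (∑ i ∈ S, y i) =
        inner ℂ (y a) (∑ i ∈ S, y i) + inner ℂ (∑ i ∈ W \ S, y i) (∑ i ∈ S, y i) := by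
      intro S hS
      have haS : a ∉ S := fun h => ha (mem_powerset.1 hS h)
      rw [insert_sdiff_of_notMem _ haS, sum_insert (fun h => ha (mem_sdiff.1 h).1), inner_add_left]
    have h2 : ∀ S ∈ W.powerset, inner ℂ (∑ i ∈ insert a W \ insert a S, y i) (∑ i ∈ insert a S, y i) =
        inner ℂ (∑ i ∈ W \ S, y i) (y a) + inner ℂ (∑ i ∈ W \ S, y i) (∑ i ∈ S, y i) := by
      intro S hS
      have haS : a ∉ S := fun h => ha (mem_powerset.1 hS h)
      have e : insert a W \ insert a S = W \ S := by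
        ext x
        simp only [mem_sdiff, mem_insert, not_or]
        constructor
        · rintro ⟨h | h, h3, h4⟩
          · exact absurd h h3
          · exact ⟨h, h4⟩
        · rintro ⟨h, h4⟩
          exact ⟨Or.inr h, fun h5 => ha (h5 ▸ h), h4⟩
      rw [e, sum_insert haS, inner_add_right]
    rw [sum_congr rfl h1, sum_congr rfl h2, sum_add_distrib, sum_add_distrib, ← inner_sum, ← sum_inner]
    rw [sum_insert ha, sum_insert ha, inner_add_left, inner_add_right, inner_add_right]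
    have h3 : (2 : ℂ) * inner ℂ (y a) (∑ S ∈ W.powerset, ∑ i ∈ S, y i) =
        (2 : ℂ) ^ W.card * inner ℂ (y a) (∑ i ∈ W, y i) := by
      rw [← inner_smul_right, ← inner_smul_right, hG]
    have h4 : (2 : ℂ) * inner ℂ (∑ S ∈ W.powerset, ∑ i ∈ W \ S, y i) (y a) =
        (2 : ℂ) ^ W.card * inner ℂ (∑ i ∈ W, y i) (y a) := by
      have e1 : ((starRingEnd ℂ) (2 : ℂ)) = 2 := Complex.conj_ofNat 2
      have h5 := congrArg (fun z => inner ℂ z (y a)) hGc
      simp only [inner_smul_left, map_pow, e1] at h5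
      exact h5
    have hW : (4 : ℂ) * ∑ S ∈ W.powerset, inner ℂ (∑ i ∈ W \ S, y i) (∑ i ∈ S, y i) =
      (2 : ℂ) ^ W.card * (inner ℂ (∑ i ∈ W, y i) (∑ i ∈ W, y i) - ∑ i ∈ W, inner ℂ (y i) (y i)) := ih
    rw [pow_succ]
    linear_combination 2 * h3 + 2 * h4 + 2 * hW

/-- decoupling -/
theorem decouple_le (y : ι → E) (W : Finset ι) :
    ∃ S ⊆ W, ‖∑ i ∈ W, y i‖ ^ 2 ≤ ∑ i ∈ W, ‖y i‖ ^ 2 +
      4 * ‖(inner ℂ (∑ i ∈ W \ S, y i) (∑ i ∈ S, y i) : ℂ)‖ := by
  classical
  by_contra hcon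
  push Not at hcon
  set P : ℂ := inner ℂ (∑ i ∈ W, y i) (∑ i ∈ W, y i) - ∑ i ∈ W, inner ℂ (y i) (y i) with hP
  have hPr : P = ((‖∑ i ∈ W, y i‖ ^ 2 - ∑ i ∈ W, ‖y i‖ ^ 2 : ℝ) : ℂ) := by
    rw [hP]
    push_cast
    rw [inner_self_eq_norm_sq_to_K]
    congr 1
    apply sum_congr rfl
    intro i _
    rw [inner_self_eq_norm_sq_to_K]
    rfl
  have hPn : ‖∑ i ∈ W, y i‖ ^ 2 - ∑ i ∈ W, ‖y i‖ ^ 2 ≤ ‖P‖ := by
    rw [hPr, Complex.norm_real]
    exact le_abs_self _
  have h := decouple y W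
  have h1 : ‖(4 : ℂ) * ∑ S ∈ W.powerset, inner ℂ (∑ i ∈ W \ S, y i) (∑ i ∈ S, y i)‖ =
      2 ^ W.card * ‖P‖ := by
    rw [h, norm_mul, norm_pow, ← hP]
    have : ‖(2 : ℂ)‖ = 2 := by norm_num
    rw [this]
  have h2 : ‖(4 : ℂ) * ∑ S ∈ W.powerset, inner ℂ (∑ i ∈ W \ S, y i) (∑ i ∈ S, y i)‖ <
      2 ^ W.card * ‖P‖ := by
    rw [norm_mul]
    calc ‖(4 : ℂ)‖ * ‖∑ S ∈ W.powerset, (inner ℂ (∑ i ∈ W \ S, y i) (∑ i ∈ S, y i) : ℂ)‖
        ≤ 4 * ∑ S ∈ W.powerset, ‖(inner ℂ (∑ i ∈ W \ S, y i) (∑ i ∈ S, y i) : ℂ)‖ := by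
          have : ‖(4 : ℂ)‖ = 4 := by norm_num
          rw [this]
          exact mul_le_mul_of_nonneg_left (norm_sum_le _ _) (by norm_num)
      _ = ∑ S ∈ W.powerset, 4 * ‖(inner ℂ (∑ i ∈ W \ S, y i) (∑ i ∈ S, y i) : ℂ)‖ := by
          rw [mul_sum]
      _ < ∑ S ∈ W.powerset, ‖P‖ := by
          apply sum_lt_sum_of_nonempty ⟨∅, empty_mem_powerset W⟩
          intro S hS
          have := hcon S (mem_powerset.1 hS)
          linarith
      _ = 2 ^ W.card * ‖P‖ := by
          rw [sum_const, card_powerset, nsmul_eq_mul]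
          push_cast
          ring
  exact absurd h1 h2.ne

/-- the four phases -/
def IsPh (z : ℂ) : Prop := z = 1 ∨ z = -1 ∨ z = Complex.I ∨ z = -Complex.I

theorem IsPh.norm {z : ℂ} (h : IsPh z) : ‖z‖ = 1 := by
  rcases h with h | h | h | h <;> simp [h]

/-- **The recursion.** If for all signed sums `Y` over nonempty sets `W` fewer than `|W| / 64` of the
vectors outside `W` have a scalar product greater than `lam ‖Y‖` with `Y`, then all signed sums are
small. -/
theorem recur (v : ι → E) (n lam : ℝ) (hn : 0 ≤ n) (hl : 0 ≤ lam) (hv : ∀ i, ‖v i‖ ^ 2 ≤ n)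
    (H : ∀ (W : Finset ι) (β : ι → ℂ), W.Nonempty → (∀ i, IsPh (β i)) →
      ∀ Q : Finset ι, Disjoint Q W →
        (∀ i ∈ Q, lam * ‖∑ j ∈ W, β j • v j‖ < ‖(inner ℂ (∑ j ∈ W, β j • v j) (v i) : ℂ)‖) →
        64 * Q.card < W.card) :
    ∀ (s : ℕ) (W : Finset ι) (β : ι → ℂ), W.card = s → (∀ i, IsPh (β i)) →
      ‖∑ j ∈ W, β j • v j‖ ≤ 2 * Real.sqrt (s * n) + 5 * (lam * s) := by
  intro s
  induction s using Nat.strong_induction_on with
  | _ s ih =>
  intro W β hW hβ
  obtain ⟨S, hS, hle⟩ := decouple_le (fun j => β j • v j) W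
  have hs0 : (0 : ℝ) ≤ s := Nat.cast_nonneg s
  set x : ℝ := Real.sqrt (s * n) with hx
  set z : ℝ := lam * s with hz
  have hx0 : 0 ≤ x := Real.sqrt_nonneg _
  have hz0 : 0 ≤ z := by positivity
  have hx2 : x ^ 2 = s * n := Real.sq_sqrt (by positivity)
  have hdiag : ∑ i ∈ W, ‖β i • v i‖ ^ 2 ≤ x ^ 2 := by
    rw [hx2]
    calc ∑ i ∈ W, ‖β i • v i‖ ^ 2 ≤ ∑ i ∈ W, n := by
          apply sum_le_sum
          intro i _
          rw [norm_smul, (hβ i).norm, one_mul]
          exact hv i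
      _ = s * n := by rw [sum_const, hW, nsmul_eq_mul]
  set Y2 : E := ∑ j ∈ W \ S, β j • v j with hY2
  -- the cross term
  have hcross : ‖(inner ℂ Y2 (∑ j ∈ S, β j • v j) : ℂ)‖ ≤
      (2 * x + 5 * z) * (z + x / 4 + 5 * z / 64) := by
    rcases (W \ S).eq_empty_or_nonempty with h0 | hne
    · have : Y2 = 0 := by rw [hY2, h0, sum_empty]
      rw [this, inner_zero_left, norm_zero]
      positivity
    · classical
      set Q : Finset ι := S.filter (fun i => lam * ‖Y2‖ < ‖(inner ℂ Y2 (v i) : ℂ)‖) with hQ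
      have hdisj : Disjoint Q (W \ S) := by
        rw [disjoint_left]
        intro i hi hi2
        exact (mem_sdiff.1 hi2).2 (mem_filter.1 hi).1
      have hQc := H (W \ S) β hne hβ Q hdisj (fun i hi => (mem_filter.1 hi).2)
      have hQs : 64 * Q.card < s := lt_of_lt_of_le hQc (by rw [← hW]; exact card_le_card sdiff_subset)
      have hQs' : (Q.card : ℝ) ≤ s / 64 := by
        have : (64 * Q.card : ℝ) ≤ s := by exact_mod_cast hQs.le
        linarith
      -- the norm of Y2
      have hY2n : S = ∅ ∨ ‖Y2‖ ≤ 2 * x + 5 * z := by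
        rcases S.eq_empty_or_nonempty with hSe | hSne
        · exact Or.inl hSe
        · right
          have hc : (W \ S).card < s := by
            rw [← hW]
            apply card_lt_card
            rw [ssubset_iff_subset_ne]
            refine ⟨sdiff_subset, fun e => ?_⟩
            obtain ⟨i, hi⟩ := hSne
            have := hS hi
            rw [← e] at this
            exact (mem_sdiff.1 this).2 hi
          have h := ih _ hc (W \ S) β rfl hβ
          have hc' : ((W \ S).card : ℝ) ≤ s := by exact_mod_cast hc.le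
          refine h.trans ?_
          have h1 : Real.sqrt ((W \ S).card * n) ≤ x :=
            Real.sqrt_le_sqrt (mul_le_mul_of_nonneg_right hc' hn)
          have h2 : lam * ((W \ S).card : ℝ) ≤ z := mul_le_mul_of_nonneg_left hc' hl
          linarith
      rcases hY2n with hSe | hY2n
      · rw [hSe, sum_empty, inner_zero_right, norm_zero]
        positivity
      -- split
      have hsplit : ∑ j ∈ S, β j • v j = ∑ j ∈ S \ Q, β j • v j + ∑ j ∈ Q, β j • v j := by
        rw [sum_sdiff (filter_subset _ _)]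
      have hA : ‖(inner ℂ Y2 (∑ j ∈ S \ Q, β j • v j) : ℂ)‖ ≤ z * ‖Y2‖ := by
        rw [inner_sum]
        refine (norm_sum_le _ _).trans ?_
        calc ∑ i ∈ S \ Q, ‖(inner ℂ Y2 (β i • v i) : ℂ)‖ ≤ ∑ i ∈ S \ Q, lam * ‖Y2‖ := by
              apply sum_le_sum
              intro i hi
              rw [inner_smul_right, norm_mul, (hβ i).norm, one_mul]
              by_contra hc
              push Not at hc
              exact (mem_sdiff.1 hi).2 (mem_filter.2 ⟨(mem_sdiff.1 hi).1, hc⟩)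
          _ = (S \ Q).card * (lam * ‖Y2‖) := by rw [sum_const, nsmul_eq_mul]
          _ ≤ s * (lam * ‖Y2‖) := by
              apply mul_le_mul_of_nonneg_right _ (by positivity)
              have : (S \ Q).card ≤ s := by
                rw [← hW]
                exact card_le_card (sdiff_subset.trans hS)
              exact_mod_cast this
          _ = z * ‖Y2‖ := by rw [hz]; ring
      have hB : ‖(inner ℂ Y2 (∑ j ∈ Q, β j • v j) : ℂ)‖ ≤ ‖Y2‖ * (x / 4 + 5 * z / 64) := by
        refine (norm_inner_le_norm _ _).trans (mul_le_mul_of_nonneg_left ?_ (norm_nonneg _))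
        have hlt : Q.card < s := by omega
        refine (ih _ hlt Q β rfl hβ).trans ?_
        have h1 : Real.sqrt (Q.card * n) ≤ x / 8 := by
          rw [Real.sqrt_le_left (by positivity), div_pow, hx2]
          have := mul_le_mul_of_nonneg_right hQs' hn
          calc (Q.card : ℝ) * n ≤ s / 64 * n := this
            _ = s * n / 8 ^ 2 := by ring
        have h2 : lam * (Q.card : ℝ) ≤ z / 64 := by
          rw [hz]
          have := mul_le_mul_of_nonneg_left hQs' hl
          linarith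
        linarith
      rw [hsplit, inner_add_right]
      refine (norm_add_le _ _).trans ?_
      have h3 : z * ‖Y2‖ + ‖Y2‖ * (x / 4 + 5 * z / 64) ≤ (2 * x + 5 * z) * (z + x / 4 + 5 * z / 64) := by
        have : z * ‖Y2‖ + ‖Y2‖ * (x / 4 + 5 * z / 64) = ‖Y2‖ * (z + x / 4 + 5 * z / 64) := by ring
        rw [this]
        exact mul_le_mul_of_nonneg_right hY2n (by positivity)
      linarith
  have hfin : ‖∑ j ∈ W, β j • v j‖ ^ 2 ≤ (2 * x + 5 * z) ^ 2 := by
    refine hle.trans ?_
    nlinarith [mul_nonneg hx0 hz0, sq_nonneg x, sq_nonneg z]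
  exact abs_le_of_sq_le_sq' hfin (by positivity) |>.2

end Pool.Agent.Y959.Her
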