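import Pool.Agent.Y959.Her.Comb

set_option autoImplicit false

/-!
# Large scalar products from bounds for signed sums
-/

namespace Pool.Agent.Y959.Her

open Finset

theorem exists_phase (z : ℂ) : ∃ β, IsPh β ∧ 7 / 10 * ‖z‖ ≤ (β * z).re := by
  have hn : ‖z‖ ^ 2 = z.re ^ 2 + z.im ^ 2 := by
    rw [← Complex.normSq_eq_norm_sq, Complex.normSq_apply]; ring
  have hz0 := norm_nonneg z
  have key : ∀ m : ℝ, 0 ≤ m → z.re ^ 2 ≤ m ^ 2 → z.im ^ 2 ≤ m ^ 2 → 7 / 10 * ‖z‖ ≤ m := by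
    intro m hm h1 h2
    have : (7 / 10 * ‖z‖) ^ 2 ≤ m ^ 2 := by
      rw [mul_pow, hn]
      nlinarith [sq_nonneg m]
    exact (abs_le_of_sq_le_sq' this hm).2
  rcases le_total |z.im| |z.re| with h | h
  · have h' : z.im ^ 2 ≤ z.re ^ 2 := sq_le_sq.2 h
    rcases le_total 0 z.re with h0 | h0
    · refine ⟨1, Or.inl rfl, ?_⟩
      rw [one_mul]
      exact key _ h0 le_rfl h'
    · refine ⟨-1, Or.inr (Or.inl rfl), ?_⟩
      have e : (-1 * z).re = -z.re := by simp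
      rw [e]
      exact key _ (by linarith) (by rw [neg_sq]) (by rw [neg_sq]; exact h')
  · have h' : z.re ^ 2 ≤ z.im ^ 2 := sq_le_sq.2 h
    rcases le_total 0 z.im with h0 | h0
    · refine ⟨-Complex.I, Or.inr (Or.inr (Or.inr rfl)), ?_⟩
      have e : (-Complex.I * z).re = z.im := by simp
      rw [e]
      exact key _ h0 h' le_rfl
    · refine ⟨Complex.I, Or.inr (Or.inr (Or.inl rfl)), ?_⟩
      have e : (Complex.I * z).re = -z.im := by simp
      rw [e]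
      exact key _ (by linarith) (by rw [neg_sq]; exact h') (by rw [neg_sq])

variable {ι E : Type*} [DecidableEq ι] [NormedAddCommGroup E] [InnerProductSpace ℂ E]

theorem large_values (v : ι → E) (n lam : ℝ) (hn : 0 ≤ n)
    (hY : ∀ (W : Finset ι) (β : ι → ℂ), (∀ i, IsPh (β i)) →
      ‖∑ j ∈ W, β j • v j‖ ≤ 2 * Real.sqrt (W.card * n) + 5 * (lam * W.card))
    (x : E) (V : ℝ) (hV : 25 * lam * ‖x‖ ≤ V) (hV0 : 0 ≤ V) (W : Finset ι)
    (hW : ∀ i ∈ W, V ≤ ‖(inner ℂ x (v i) : ℂ)‖) : V ^ 2 * W.card ≤ 16 * n * ‖x‖ ^ 2 := by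
  rcases W.eq_empty_or_nonempty with h0 | hne
  · rw [h0, card_empty]
    push_cast
    rw [mul_zero]
    positivity
  have hs : (0 : ℝ) < W.card := by exact_mod_cast card_pos.2 hne
  set s : ℝ := (W.card : ℝ) with hsd
  choose β hβ hβ2 using fun i => exists_phase (inner ℂ x (v i) : ℂ)
  have h1 : 7 / 10 * V * s ≤ ‖x‖ * (2 * Real.sqrt (s * n) + 5 * (lam * s)) := by
    calc 7 / 10 * V * s = ∑ i ∈ W, 7 / 10 * V := by rw [sum_const, nsmul_eq_mul]; ring
      _ ≤ ∑ i ∈ W, (β i * (inner ℂ x (v i) : ℂ)).re := by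
          apply sum_le_sum
          intro i hi
          exact (mul_le_mul_of_nonneg_left (hW i hi) (by norm_num)).trans (hβ2 i)
      _ = (inner ℂ x (∑ j ∈ W, β j • v j) : ℂ).re := by
          rw [inner_sum, Complex.re_sum]
          apply sum_congr rfl
          intro i _
          rw [inner_smul_right]
      _ ≤ ‖(inner ℂ x (∑ j ∈ W, β j • v j) : ℂ)‖ := Complex.re_le_norm _
      _ ≤ ‖x‖ * ‖∑ j ∈ W, β j • v j‖ := norm_inner_le_norm _ _
      _ ≤ _ := mul_le_mul_of_nonneg_left (hY W β hβ) (norm_nonneg _)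
  have h2 : ‖x‖ * (5 * (lam * s)) ≤ V * s / 5 := by
    have := mul_le_mul_of_nonneg_right hV hs.le
    linarith
  have h3 : V * s / 4 ≤ ‖x‖ * Real.sqrt (s * n) := by
    have : ‖x‖ * (2 * Real.sqrt (s * n) + 5 * (lam * s)) =
        2 * (‖x‖ * Real.sqrt (s * n)) + ‖x‖ * (5 * (lam * s)) := by ring
    rw [this] at h1
    linarith
  have h4 : (V * s / 4) ^ 2 ≤ (‖x‖ * Real.sqrt (s * n)) ^ 2 :=
    pow_le_pow_left₀ (by positivity) h3 2
  rw [mul_pow, Real.sq_sqrt (by positivity)] at h4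
  have h5 : s * (V ^ 2 * s) ≤ s * (16 * n * ‖x‖ ^ 2) := by nlinarith
  exact le_of_mul_le_mul_left h5 hs

end Pool.Agent.Y959.Her
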