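import Pool.Agent.TH705.DL.Block
import Pool.Agent.Helper112.Arith

set_option autoImplicit false

/-!
# High moments of Dirichlet polynomials at integer shifts
-/

namespace Pool.Agent.Y959.Her

open Finset Pool.Agent.TH705.DL

/-- the coefficients of the powers -/
noncomputable def pw (N : ℕ) (a : ℕ → ℂ) : ℕ → ℕ → ℂ
  | 0 => fun m => if m = 1 then 1 else 0
  | (k + 1) => fun m => ∑ p ∈ (Icc 1 N ×ˢ Icc 1 (N ^ k)).filter (fun p => p.1 * p.2 = m),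
      a p.1 * pw N a k p.2

theorem ph_mul (t : ℝ) (m n : ℕ) (hm : 1 ≤ m) (hn : 1 ≤ n) : ph t (m * n) = ph t m * ph t n := by
  unfold ph
  rw [← Complex.exp_add]
  congr 1
  have hm0 : (m : ℝ) ≠ 0 := by exact_mod_cast (by omega : m ≠ 0)
  have hn0 : (n : ℝ) ≠ 0 := by exact_mod_cast (by omega : n ≠ 0)
  push_cast
  rw [Real.log_mul hm0 hn0]
  push_cast
  ring

theorem pow_eq (N : ℕ) (a : ℕ → ℂ) (t : ℝ) (k : ℕ) : DP N a t ^ k = DP (N ^ k) (pw N a k) t := by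
  induction k with
  | zero =>
    unfold DP
    simp [pw, ph]
  | succ k ih =>
    rw [pow_succ, ih]
    unfold DP
    rw [mul_comm, sum_mul_sum, ← sum_product']
    have hmaps : ∀ p ∈ Icc 1 N ×ˢ Icc 1 (N ^ k), p.1 * p.2 ∈ Icc 1 (N ^ (k + 1)) := by
      intro p hp
      rw [mem_product, mem_Icc, mem_Icc] at hp
      rw [mem_Icc, pow_succ, mul_comm (N ^ k)]
      exact ⟨Nat.mul_pos hp.1.1 hp.2.1, Nat.mul_le_mul hp.1.2 hp.2.2⟩
    rw [← sum_fiberwise_of_maps_to hmaps]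
    apply sum_congr rfl
    intro m _
    have e : pw N a (k + 1) m = ∑ p ∈ (Icc 1 N ×ˢ Icc 1 (N ^ k)).filter (fun p => p.1 * p.2 = m),
      a p.1 * pw N a k p.2 := rfl
    rw [e, sum_mul]
    apply sum_congr rfl
    intro p hp
    rw [mem_filter, mem_product, mem_Icc, mem_Icc] at hp
    rw [← hp.2, ph_mul t _ _ hp.1.1.1 hp.1.2.1]
    ring

theorem pw_l2 (N : ℕ) (a : ℕ → ℂ) (K : ℕ) (D : ℝ) (hD : ∀ m ∈ Icc 1 (N ^ K), (m.divisors.card : ℝ) ≤ D)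
    (hN : 1 ≤ N) (k : ℕ) (hk : k ≤ K) :
    ∑ m ∈ Icc 1 (N ^ k), ‖pw N a k m‖ ^ 2 ≤ D ^ k * (∑ n ∈ Icc 1 N, ‖a n‖ ^ 2) ^ k := by
  have hD0 : 0 ≤ D := by
    refine le_trans (Nat.cast_nonneg _) (hD 1 (mem_Icc.2 ⟨le_rfl, Nat.one_le_pow _ _ hN⟩))
  induction k with
  | zero =>
    simp [pw]
  | succ k ih =>
    have ih' := ih (by omega)
    have hmaps : ∀ p ∈ Icc 1 N ×ˢ Icc 1 (N ^ k), p.1 * p.2 ∈ Icc 1 (N ^ (k + 1)) := by
      intro p hp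
      rw [mem_product, mem_Icc, mem_Icc] at hp
      rw [mem_Icc, pow_succ, mul_comm (N ^ k)]
      exact ⟨Nat.mul_pos hp.1.1 hp.2.1, Nat.mul_le_mul hp.1.2 hp.2.2⟩
    have h1 : ∀ m ∈ Icc 1 (N ^ (k + 1)), ‖pw N a (k + 1) m‖ ^ 2 ≤
        D * ∑ p ∈ (Icc 1 N ×ˢ Icc 1 (N ^ k)).filter (fun p => p.1 * p.2 = m),
          ‖a p.1‖ ^ 2 * ‖pw N a k p.2‖ ^ 2 := by
      intro m hm
      have hm1 : 1 ≤ m := (mem_Icc.1 hm).1
      have e : pw N a (k + 1) m = ∑ p ∈ (Icc 1 N ×ˢ Icc 1 (N ^ k)).filter (fun p => p.1 * p.2 = m),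
        a p.1 * pw N a k p.2 := rfl
      rw [e]
      have hc : (((Icc 1 N ×ˢ Icc 1 (N ^ k)).filter (fun p => p.1 * p.2 = m)).card : ℝ) ≤ D := by
        have h2 : ((Icc 1 N ×ˢ Icc 1 (N ^ k)).filter (fun p => p.1 * p.2 = m)).card ≤
            m.divisors.card := by
          apply card_le_card_of_injOn (fun p => p.1)
          · intro p hp
            rw [mem_coe, mem_filter] at hp
            rw [mem_coe, Nat.mem_divisors]
            exact ⟨⟨p.2, hp.2.symm⟩, by omega⟩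
          · intro p hp p' hp' h
            rw [mem_coe, mem_filter, mem_product, mem_Icc] at hp hp'
            have h' : p.1 = p'.1 := h
            have h3 : p.1 * p.2 = p.1 * p'.2 := by rw [hp.2, h', hp'.2]
            have h4 := Nat.eq_of_mul_eq_mul_left hp.1.1.1 h3
            exact Prod.ext h' h4
        have hmK : m ∈ Icc 1 (N ^ K) :=
          mem_Icc.2 ⟨hm1, (mem_Icc.1 hm).2.trans (Nat.pow_le_pow_right hN hk)⟩
        exact le_trans (by exact_mod_cast h2) (hD m hmK)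
      set F := (Icc 1 N ×ˢ Icc 1 (N ^ k)).filter (fun p => p.1 * p.2 = m) with hF
      calc ‖∑ p ∈ F, a p.1 * pw N a k p.2‖ ^ 2 ≤ (∑ p ∈ F, ‖a p.1 * pw N a k p.2‖) ^ 2 :=
            pow_le_pow_left₀ (norm_nonneg _) (norm_sum_le _ _) 2
        _ ≤ F.card * ∑ p ∈ F, ‖a p.1 * pw N a k p.2‖ ^ 2 := sq_sum_le_card_mul_sum_sq
        _ = F.card * ∑ p ∈ F, ‖a p.1‖ ^ 2 * ‖pw N a k p.2‖ ^ 2 := by
            congr 1
            apply sum_congr rfl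
            intro p _
            rw [norm_mul, mul_pow]
        _ ≤ D * ∑ p ∈ F, ‖a p.1‖ ^ 2 * ‖pw N a k p.2‖ ^ 2 :=
            mul_le_mul_of_nonneg_right hc (sum_nonneg fun _ _ => by positivity)
    refine (sum_le_sum h1).trans ?_
    rw [← mul_sum, sum_fiberwise_of_maps_to hmaps, sum_product, pow_succ, pow_succ]
    have h3 : ∑ x ∈ Icc 1 N, ∑ y ∈ Icc 1 (N ^ k), ‖a x‖ ^ 2 * ‖pw N a k y‖ ^ 2 =
        (∑ n ∈ Icc 1 N, ‖a n‖ ^ 2) * ∑ m ∈ Icc 1 (N ^ k), ‖pw N a k m‖ ^ 2 := by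
      rw [sum_mul_sum]
    rw [h3]
    have h4 : (0:ℝ) ≤ ∑ n ∈ Icc 1 N, ‖a n‖ ^ 2 := sum_nonneg fun _ _ => by positivity
    calc D * ((∑ n ∈ Icc 1 N, ‖a n‖ ^ 2) * ∑ m ∈ Icc 1 (N ^ k), ‖pw N a k m‖ ^ 2)
        ≤ D * ((∑ n ∈ Icc 1 N, ‖a n‖ ^ 2) * (D ^ k * (∑ n ∈ Icc 1 N, ‖a n‖ ^ 2) ^ k)) := by
          gcongr
      _ = _ := by ring

/-- the moments at integer shifts -/
theorem moment (N : ℕ) (hN : 1 ≤ N) (a : ℕ → ℂ) (k : ℕ) (D : ℝ)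
    (hD : ∀ m ∈ Icc 1 (N ^ k), (m.divisors.card : ℝ) ≤ D) (L : ℕ) (hL : N ^ (2 * k) ≤ L) (s : ℝ) :
    ∑ u : Fin L, ‖DP N a (s + (u : ℕ))‖ ^ (2 * k) ≤
      (2 + Real.log ((N : ℝ) ^ k) ^ 2) * (5 * L) * (D ^ k * (∑ n ∈ Icc 1 N, ‖a n‖ ^ 2) ^ k) := by
  classical
  have hY1 : 1 ≤ N ^ k := Nat.one_le_pow _ _ hN
  have hL1 : 1 ≤ L := le_trans (Nat.one_le_pow _ _ hN) hL
  set S : Finset ℝ := (univ : Finset (Fin L)).image (fun u : Fin L => s + ((u : ℕ) : ℝ)) with hS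
  have hinj : Set.InjOn (fun u : Fin L => s + ((u : ℕ) : ℝ)) (univ : Finset (Fin L)) := by
    intro u _ u' _ h
    have h1 : ((u : ℕ) : ℝ) = ((u' : ℕ) : ℝ) := by
      have : s + ((u : ℕ) : ℝ) = s + ((u' : ℕ) : ℝ) := h
      linarith
    exact Fin.ext (by exact_mod_cast h1)
  have hsep : Sep S := by
    intro t ht u hu htu
    rw [hS, mem_image] at ht hu
    obtain ⟨x, _, rfl⟩ := ht
    obtain ⟨y, _, rfl⟩ := hu
    have hxy : (x : ℕ) ≠ (y : ℕ) := by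
      intro h
      exact htu (by rw [h])
    have e : s + ((x : ℕ) : ℝ) - (s + ((y : ℕ) : ℝ)) = (((x : ℕ) : ℤ) - ((y : ℕ) : ℤ) : ℤ) := by
      push_cast
      ring
    rw [e, ← Int.cast_abs]
    have h2 : (1 : ℤ) ≤ |((x : ℕ) : ℤ) - ((y : ℕ) : ℤ)| := Int.one_le_abs (by omega)
    exact_mod_cast h2
  have hx : ∀ t ∈ S, s ≤ t ∧ t ≤ s + (L - 1) := by
    intro t ht
    rw [hS, mem_image] at ht
    obtain ⟨x, _, rfl⟩ := ht
    have h1 : ((x : ℕ) : ℝ) + 1 ≤ L := by exact_mod_cast x.2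
    have h2 : (0 : ℝ) ≤ ((x : ℕ) : ℝ) := Nat.cast_nonneg _
    constructor <;> linarith
  have hL1' : (1 : ℝ) ≤ L := by exact_mod_cast hL1
  have h := block (N ^ k) hY1 (pw N a k) S hsep s (s + (L - 1)) (by linarith) hx
  have h1 : ∑ u : Fin L, ‖DP N a (s + (u : ℕ))‖ ^ (2 * k) = ∑ t ∈ S, ‖DP (N ^ k) (pw N a k) t‖ ^ 2 := by
    rw [hS, sum_image hinj]
    apply sum_congr rfl
    intro u _
    rw [← pow_eq, norm_pow, ← pow_mul, mul_comm 2 k]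
  rw [h1]
  refine h.trans ?_
  push_cast
  set Y : ℝ := (N : ℝ) ^ k with hY
  have hY1' : (1 : ℝ) ≤ Y := one_le_pow₀ (by exact_mod_cast hN)
  have hYL : Y ^ 2 ≤ L := by
    rw [hY, ← pow_mul, mul_comm k 2]
    exact_mod_cast hL
  have h2 : s + ((L : ℝ) - 1) + 1 - s + 4 * Y * (1 + Real.log Y) ≤ 5 * L := by
    have h3 : 1 + Real.log Y ≤ Y := by
      have := Real.log_le_sub_one_of_pos (lt_of_lt_of_le one_pos hY1')
      linarith
    have h4 : 4 * Y * (1 + Real.log Y) ≤ 4 * Y * Y := mul_le_mul_of_nonneg_left h3 (by positivity)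
    nlinarith
  have h5 := pw_l2 N a k D hD hN k le_rfl
  have h6 : 0 ≤ 2 + Real.log Y ^ 2 := by positivity
  have h7 : 0 ≤ s + ((L : ℝ) - 1) + 1 - s + 4 * Y * (1 + Real.log Y) := by
    have : 0 ≤ Real.log Y := Real.log_nonneg hY1'
    have : 0 ≤ 4 * Y * (1 + Real.log Y) := by positivity
    linarith
  have h8 : 0 ≤ ∑ m ∈ Icc 1 (N ^ k), ‖pw N a k m‖ ^ 2 := sum_nonneg fun _ _ => by positivity
  calc (2 + Real.log Y ^ 2) * (s + ((L : ℝ) - 1) + 1 - s + 4 * Y * (1 + Real.log Y)) *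
        ∑ m ∈ Icc 1 (N ^ k), ‖pw N a k m‖ ^ 2
      ≤ (2 + Real.log Y ^ 2) * (5 * L) * ∑ m ∈ Icc 1 (N ^ k), ‖pw N a k m‖ ^ 2 :=
        mul_le_mul_of_nonneg_right (mul_le_mul_of_nonneg_left h2 h6) h8
    _ ≤ _ := mul_le_mul_of_nonneg_left h5 (by positivity)

end Pool.Agent.Y959.Her
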