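import Pool.Agent.Helper112.Arith

set_option autoImplicit false

/-!
# The choice of the parameters
-/

namespace Pool.Agent.Y959.Her

open Finset

theorem par (ε A B : ℝ) (hε : 0 < ε) (hA : 0 ≤ A) (hB : 0 ≤ B) :
    ∃ (k : ℕ) (C0 K : ℝ), 1 ≤ k ∧ (k : ℝ) ≤ 65 * (A + B) / ε + 2 ∧ 0 < C0 ∧ 1 ≤ K ∧
      (∀ N : ℕ, 1 ≤ N → ∀ m ∈ Icc 1 (N ^ k), (m.divisors.card : ℝ) ≤
        C0 * ((N : ℝ) ^ k) ^ (ε / (2 * k))) ∧
      ∀ N : ℕ, 1 ≤ N → ∀ M : ℝ, 1 ≤ M → M ≤ (N : ℝ) ^ B →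
        M * (((2 + Real.log ((N : ℝ) ^ k) ^ 2) * 5 * (C0 * ((N : ℝ) ^ k) ^ (ε / (2 * k))) ^ k) /
          (K * (N : ℝ) ^ ε / 25) ^ (2 * k)) ≤ ((N : ℝ) ^ (-A) / (8 * M)) ^ 64 := by
  set k : ℕ := ⌈65 * (A + B) / ε⌉₊ + 1 with hk
  have hk1 : 1 ≤ k := by omega
  have hk0 : (0 : ℝ) < k := by exact_mod_cast hk1
  have hkε : 65 * (A + B) + ε ≤ k * ε := by
    have h1 : 65 * (A + B) / ε ≤ (⌈65 * (A + B) / ε⌉₊ : ℝ) := Nat.le_ceil _
    have h2 : 65 * (A + B) / ε + 1 ≤ k := by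
      rw [hk]
      push_cast
      linarith
    calc 65 * (A + B) + ε = (65 * (A + B) / ε + 1) * ε := by field_simp
      _ ≤ k * ε := mul_le_mul_of_nonneg_right h2 hε.le
  set ε0 : ℝ := ε / (2 * k) with hε0
  have hε00 : 0 < ε0 := by positivity
  obtain ⟨C0, hC0, hdiv⟩ := Pool.Agent.Helper112.divisor_bound ε0 hε00
  set ck : ℝ := (2 + 4 * (k : ℝ) ^ 2 / ε ^ 2) * 5 * C0 ^ k * 25 ^ (2 * k) with hck
  have hck0 : 0 < ck := by positivity
  set K : ℝ := 1 + ck * 8 ^ 64 with hK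
  have hK1 : 1 ≤ K := by
    have : 0 ≤ ck * 8 ^ 64 := by positivity
    linarith
  have hkup : (k : ℝ) ≤ 65 * (A + B) / ε + 2 := by
    have h1 : (⌈65 * (A + B) / ε⌉₊ : ℝ) < 65 * (A + B) / ε + 1 := Nat.ceil_lt_add_one (by positivity)
    rw [hk]
    push_cast
    linarith
  refine ⟨k, C0, K, hk1, hkup, hC0, hK1, ?_, ?_⟩
  · intro N hN m hm
    rw [mem_Icc] at hm
    refine (hdiv m hm.1).trans ?_
    apply mul_le_mul_of_nonneg_left _ hC0.le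
    apply Real.rpow_le_rpow (Nat.cast_nonneg _) _ hε00.le
    exact_mod_cast hm.2
  · intro N hN M hM1 hMB
    have hN1 : (1 : ℝ) ≤ N := by exact_mod_cast hN
    have hN0 : (0 : ℝ) < N := by linarith
    have hM0 : 0 < M := by linarith
    -- the logarithm
    have h1 : 2 + Real.log ((N : ℝ) ^ k) ^ 2 ≤ (2 + 4 * (k : ℝ) ^ 2 / ε ^ 2) * (N : ℝ) ^ ε := by
      have hl0 : 0 ≤ Real.log N := Real.log_nonneg hN1
      have hl : Real.log N ≤ (N : ℝ) ^ (ε / 2) / (ε / 2) :=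
        Real.log_le_rpow_div hN0.le (by positivity)
      have hsq : ((N : ℝ) ^ (ε / 2)) ^ 2 = (N : ℝ) ^ ε := by
        rw [← Real.rpow_natCast, ← Real.rpow_mul hN0.le]
        congr 1
        push_cast
        ring
      have h2 : Real.log ((N : ℝ) ^ k) ^ 2 ≤ 4 * (k : ℝ) ^ 2 / ε ^ 2 * (N : ℝ) ^ ε := by
        rw [Real.log_pow, mul_pow]
        calc (k : ℝ) ^ 2 * Real.log N ^ 2 ≤ (k : ℝ) ^ 2 * ((N : ℝ) ^ (ε / 2) / (ε / 2)) ^ 2 := by
              gcongr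
          _ = 4 * (k : ℝ) ^ 2 / ε ^ 2 * (N : ℝ) ^ ε := by
              rw [div_pow, hsq]
              field_simp
              ring
      have h3 : (1 : ℝ) ≤ (N : ℝ) ^ ε := Real.one_le_rpow hN1 hε.le
      nlinarith
    -- the divisor part
    have h2 : (C0 * ((N : ℝ) ^ k) ^ ε0) ^ k = C0 ^ k * (N : ℝ) ^ (k * ε / 2) := by
      rw [mul_pow]
      congr 1
      rw [← Real.rpow_natCast (N : ℝ) k, ← Real.rpow_mul hN0.le, ← Real.rpow_natCast,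
        ← Real.rpow_mul hN0.le]
      congr 1
      rw [hε0]
      field_simp
    have h3 : (K * (N : ℝ) ^ ε / 25) ^ (2 * k) = K ^ (2 * k) * (N : ℝ) ^ (2 * k * ε) / 25 ^ (2 * k) := by
      rw [div_pow, mul_pow]
      congr 2
      rw [← Real.rpow_natCast, ← Real.rpow_mul hN0.le]
      congr 1
      push_cast
      ring
    have hKk : K ≤ K ^ (2 * k) := by
      calc K = K ^ 1 := (pow_one K).symm
        _ ≤ K ^ (2 * k) := pow_le_pow_right₀ hK1 (by omega)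
    have hK0 : 0 < K := by linarith
    have h4 : ((2 + Real.log ((N : ℝ) ^ k) ^ 2) * 5 * (C0 * ((N : ℝ) ^ k) ^ ε0) ^ k) /
          (K * (N : ℝ) ^ ε / 25) ^ (2 * k) ≤
        (1 / 8 ^ 64) * (N : ℝ) ^ (ε + k * ε / 2 - 2 * k * ε) := by
      rw [h2, h3]
      have e1 : (N : ℝ) ^ (ε + k * ε / 2 - 2 * k * ε) =
          (N : ℝ) ^ ε * (N : ℝ) ^ (k * ε / 2) / (N : ℝ) ^ (2 * k * ε) := by
        rw [Real.rpow_sub hN0, Real.rpow_add hN0]
      rw [e1]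
      rw [div_le_iff₀ (by positivity)]
      have e2 : 1 / 8 ^ 64 * ((N : ℝ) ^ ε * (N : ℝ) ^ (k * ε / 2) / (N : ℝ) ^ (2 * k * ε)) *
          (K ^ (2 * k) * (N : ℝ) ^ (2 * k * ε) / 25 ^ (2 * k)) =
          (K ^ (2 * k) / (8 ^ 64 * 25 ^ (2 * k))) * ((N : ℝ) ^ ε * (N : ℝ) ^ (k * ε / 2)) := by
        have : (N : ℝ) ^ (2 * k * ε) ≠ 0 := (Real.rpow_pos_of_pos hN0 _).ne'
        field_simp
      rw [e2]
      have e3 : (2 + 4 * (k : ℝ) ^ 2 / ε ^ 2) * 5 * C0 ^ k ≤ K ^ (2 * k) / (8 ^ 64 * 25 ^ (2 * k)) := by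
        rw [le_div_iff₀ (by positivity)]
        calc (2 + 4 * (k : ℝ) ^ 2 / ε ^ 2) * 5 * C0 ^ k * (8 ^ 64 * 25 ^ (2 * k))
            = ck * 8 ^ 64 := by rw [hck]; ring
          _ ≤ K := by rw [hK]; linarith
          _ ≤ K ^ (2 * k) := hKk
      calc (2 + Real.log ((N : ℝ) ^ k) ^ 2) * 5 * (C0 ^ k * (N : ℝ) ^ (k * ε / 2))
          ≤ ((2 + 4 * (k : ℝ) ^ 2 / ε ^ 2) * (N : ℝ) ^ ε) * 5 * (C0 ^ k * (N : ℝ) ^ (k * ε / 2)) := by
            gcongr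
        _ = ((2 + 4 * (k : ℝ) ^ 2 / ε ^ 2) * 5 * C0 ^ k) * ((N : ℝ) ^ ε * (N : ℝ) ^ (k * ε / 2)) := by
            ring
        _ ≤ _ := mul_le_mul_of_nonneg_right e3 (by positivity)
    calc M * (((2 + Real.log ((N : ℝ) ^ k) ^ 2) * 5 * (C0 * ((N : ℝ) ^ k) ^ ε0) ^ k) /
          (K * (N : ℝ) ^ ε / 25) ^ (2 * k))
        ≤ (N : ℝ) ^ B * ((1 / 8 ^ 64) * (N : ℝ) ^ (ε + k * ε / 2 - 2 * k * ε)) := by
          apply mul_le_mul hMB h4 _ (by positivity)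
          positivity
      _ = (1 / 8 ^ 64) * (N : ℝ) ^ (B + (ε + k * ε / 2 - 2 * k * ε)) := by
          rw [Real.rpow_add hN0]
          ring
      _ ≤ (1 / 8 ^ 64) * (N : ℝ) ^ (-(64 * A) - 64 * B) := by
          apply mul_le_mul_of_nonneg_left _ (by positivity)
          apply Real.rpow_le_rpow_of_exponent_le hN1
          nlinarith [mul_pos hk0 hε]
      _ ≤ ((N : ℝ) ^ (-A) / (8 * M)) ^ 64 := by
          have e1 : (N : ℝ) ^ (-(64 * A) - 64 * B) = ((N : ℝ) ^ (-A) / (N : ℝ) ^ B) ^ 64 := by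
            rw [← Real.rpow_sub hN0, ← Real.rpow_natCast, ← Real.rpow_mul hN0.le]
            congr 1
            push_cast
            ring
          rw [e1]
          have e2 : 1 / 8 ^ 64 * ((N : ℝ) ^ (-A) / (N : ℝ) ^ B) ^ 64 =
              ((N : ℝ) ^ (-A) / (8 * (N : ℝ) ^ B)) ^ 64 := by
            rw [div_pow, div_pow, mul_pow]
            have : (N : ℝ) ^ B ≠ 0 := (Real.rpow_pos_of_pos hN0 _).ne'
            field_simp
          rw [e2]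
          apply pow_le_pow_left₀ (by positivity)
          apply div_le_div_of_nonneg_left (by positivity) (by positivity)
          linarith

end Pool.Agent.Y959.Her
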