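import Pool.Agent.Y959.Her.Prob
import Pool.Agent.Y959.Her.Large
import Pool.Agent.Y959.Her.Mom
import Pool.Agent.Y959.Her.Par

set_option autoImplicit false

/-!
# Hereditary large value bounds for random sets
-/

namespace Pool.Agent.Y959.Her

open Finset Pool.Agent.TH705.DL

/-- the vector of the `n^{it}`, `n ∈ I` -/
noncomputable def vec (I : Finset ℕ) (t : ℝ) : EuclideanSpace ℂ {n // n ∈ I} :=
  WithLp.toLp 2 (fun n => ph t n.1)

theorem vec_norm (I : Finset ℕ) (t : ℝ) : ‖vec I t‖ ^ 2 = I.card := by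
  rw [EuclideanSpace.norm_sq_eq]
  have : ∀ i : {n // n ∈ I}, ‖vec I t i‖ ^ 2 = 1 := by
    intro i
    show ‖ph t i.1‖ ^ 2 = 1
    rw [ph_norm, one_pow]
  simp [this]

/-- the coefficients belonging to a vector -/
noncomputable def co (I : Finset ℕ) (y : EuclideanSpace ℂ {n // n ∈ I}) (n : ℕ) : ℂ :=
  if h : n ∈ I then (starRingEnd ℂ) (y ⟨n, h⟩) else 0

theorem inner_vec (I : Finset ℕ) (y : EuclideanSpace ℂ {n // n ∈ I}) (t : ℝ) :
    (inner ℂ y (vec I t) : ℂ) = ∑ n ∈ I, co I y n * ph t n := by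
  rw [PiLp.inner_apply, ← sum_coe_sort I]
  apply sum_congr rfl
  intro n _
  have h1 : co I y n.1 = (starRingEnd ℂ) (y n) := by
    unfold co
    rw [dif_pos n.2]
  rw [h1, RCLike.inner_apply, mul_comm]
  rfl

theorem norm_co (I : Finset ℕ) (y : EuclideanSpace ℂ {n // n ∈ I}) :
    ∑ n ∈ I, ‖co I y n‖ ^ 2 = ‖y‖ ^ 2 := by
  rw [EuclideanSpace.norm_sq_eq, ← sum_coe_sort I]
  apply sum_congr rfl
  intro n _
  have h1 : co I y n.1 = (starRingEnd ℂ) (y n) := by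
    unfold co
    rw [dif_pos n.2]
  rw [h1, RCLike.norm_conj]

open Classical in
theorem few_large (N : ℕ) (hN : 1 ≤ N) (I : Finset ℕ) (hI : I ⊆ Icc 1 N) (k : ℕ) (D : ℝ)
    (hD : ∀ m ∈ Icc 1 (N ^ k), (m.divisors.card : ℝ) ≤ D) (L : ℕ) (hL : N ^ (2 * k) ≤ L) (s : ℝ)
    (lam : ℝ) (hlam : 0 < lam) (y : EuclideanSpace ℂ {n // n ∈ I}) :
    ((univ.filter (fun u : Fin L => lam * ‖y‖ < ‖(inner ℂ y (vec I (s + (u : ℕ))) : ℂ)‖)).card : ℝ) ≤
      ((2 + Real.log ((N : ℝ) ^ k) ^ 2) * 5 * D ^ k) / lam ^ (2 * k) * L := by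
  set F := univ.filter (fun u : Fin L => lam * ‖y‖ < ‖(inner ℂ y (vec I (s + (u : ℕ))) : ℂ)‖) with hF
  have hD0 : 0 ≤ D := by
    refine le_trans (Nat.cast_nonneg _) (hD 1 (mem_Icc.2 ⟨le_rfl, Nat.one_le_pow _ _ hN⟩))
  rcases eq_or_ne y 0 with hy | hy
  · have : F = ∅ := by
      rw [hF, hy]
      simp
    rw [this, card_empty]
    push_cast
    positivity
  have hy0 : 0 < ‖y‖ := norm_pos_iff.2 hy
  have hext : ∀ t : ℝ, (inner ℂ y (vec I t) : ℂ) = DP N (co I y) t := by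
    intro t
    rw [inner_vec]
    unfold DP
    apply sum_subset hI
    intro n _ hn
    unfold co
    rw [dif_neg hn, zero_mul]
  have hl2 : ∑ n ∈ Icc 1 N, ‖co I y n‖ ^ 2 = ‖y‖ ^ 2 := by
    rw [← norm_co]
    symm
    apply sum_subset hI
    intro n _ hn
    unfold co
    rw [dif_neg hn]
    simp
  have hm := moment N hN (co I y) k D hD L hL s
  rw [hl2] at hm
  have h1 : (F.card : ℝ) * (lam * ‖y‖) ^ (2 * k) ≤
      ∑ u : Fin L, ‖DP N (co I y) (s + (u : ℕ))‖ ^ (2 * k) := by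
    calc (F.card : ℝ) * (lam * ‖y‖) ^ (2 * k) = ∑ u ∈ F, (lam * ‖y‖) ^ (2 * k) := by
          rw [sum_const, nsmul_eq_mul]
      _ ≤ ∑ u ∈ F, ‖DP N (co I y) (s + (u : ℕ))‖ ^ (2 * k) := by
          apply sum_le_sum
          intro u hu
          rw [← hext]
          exact pow_le_pow_left₀ (by positivity) (mem_filter.1 hu).2.le _
      _ ≤ _ := sum_le_sum_of_subset_of_nonneg (subset_univ _) (fun _ _ _ => by positivity)
  have h2 := h1.trans hm
  have h3 : (0:ℝ) < (‖y‖ ^ 2) ^ k := by positivity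
  rw [div_mul_eq_mul_div, le_div_iff₀ (by positivity)]
  have h4 : ((F.card : ℝ) * lam ^ (2 * k)) * (‖y‖ ^ 2) ^ k ≤
      ((2 + Real.log ((N : ℝ) ^ k) ^ 2) * 5 * D ^ k * L) * (‖y‖ ^ 2) ^ k := by
    have e1 : ((F.card : ℝ) * lam ^ (2 * k)) * (‖y‖ ^ 2) ^ k = (F.card : ℝ) * (lam * ‖y‖) ^ (2 * k) := by
      rw [mul_pow, ← pow_mul, mul_assoc]
    rw [e1]
    refine h2.trans (le_of_eq ?_)
    ring
  exact le_of_mul_le_mul_right h4 h3

/-- **The property.** For all coefficients on `I` and all large `V` the number of the large values is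
at most `16 |I| ∑ |a_n|² / V²`; `θ` is the least admissible value of `V / (∑ |a_n|²)^{1/2}`. -/
def Good {ι : Type*} [Fintype ι] (I : Finset ℕ) (θ : ℝ) (t : ι → ℝ) : Prop :=
  ∀ (a : ℕ → ℂ) (V : ℝ), θ * Real.sqrt (∑ n ∈ I, ‖a n‖ ^ 2) ≤ V → ∀ W : Finset ι,
    (∀ i ∈ W, V ≤ ‖∑ n ∈ I, a n * ph (t i) n‖) →
      V ^ 2 * W.card ≤ 16 * I.card * ∑ n ∈ I, ‖a n‖ ^ 2

open Classical in
theorem core (ε A B : ℝ) (hε : 0 < ε) (hA : 0 ≤ A) (hB : 0 ≤ B) :
    ∃ (k : ℕ) (K : ℝ), (k : ℝ) ≤ 130 * (A + B) / ε + 4 ∧ 0 < K ∧ ∀ (N : ℕ) (ι : Type) [Fintype ι]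
      [DecidableEq ι], 1 ≤ N →
      (Fintype.card ι : ℝ) ≤ (N : ℝ) ^ B → ∀ L : ℕ, N ^ k ≤ L → ∀ I : Finset ℕ, I ⊆ Icc 1 N →
      ∀ s : ι → ℝ,
      ((univ.filter (fun ω : ι → Fin L =>
        ¬ Good I (K * (N : ℝ) ^ ε) (fun i => s i + ((ω i : ℕ) : ℝ)))).card : ℝ) ≤
        (N : ℝ) ^ (-A) * (L : ℝ) ^ Fintype.card ι := by
  obtain ⟨k, C0, K, hk, hkup, hC0, hK, hD, hpar⟩ := par ε A B hε hA hB
  refine ⟨2 * k, K, ?_, by linarith, ?_⟩
  · push_cast
    have : 130 * (A + B) / ε + 4 = 2 * (65 * (A + B) / ε + 2) := by ring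
    rw [this]
    linarith
  intro N ι _ _ hN hM L hL I hI s
  have hN1 : (1 : ℝ) ≤ N := by exact_mod_cast hN
  have hN0 : (0 : ℝ) < N := by linarith
  set M : ℕ := Fintype.card ι with hMd
  set lam : ℝ := K * (N : ℝ) ^ ε / 25 with hlam
  have hlam0 : 0 < lam := by positivity
  set D : ℝ := C0 * ((N : ℝ) ^ k) ^ (ε / (2 * k)) with hDd
  have hD0 : 0 ≤ D := by positivity
  set p : ℝ := ((2 + Real.log ((N : ℝ) ^ k) ^ 2) * 5 * D ^ k) / lam ^ (2 * k) with hp
  have hp0 : 0 ≤ p := by positivity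
  set v : ι → Fin L → EuclideanSpace ℂ {n // n ∈ I} := fun i u => vec I (s i + ((u : ℕ) : ℝ)) with hv
  have hR : ∀ (i : ι) (y : EuclideanSpace ℂ {n // n ∈ I}), ((univ.filter (fun u : Fin L =>
      lam * ‖y‖ < ‖(inner ℂ y (v i u) : ℂ)‖)).card : ℝ) ≤ p * L := fun i y =>
    few_large N hN I hI k D (hD N hN) L hL (s i) lam hlam0 y
  -- `Few` implies `Good`
  have himp : ∀ ω : ι → Fin L, Few v lam ω →
      Good I (K * (N : ℝ) ^ ε) (fun i => s i + ((ω i : ℕ) : ℝ)) := by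
    intro ω hω a V hV W hW
    have hrec := recur (fun i => v i (ω i)) I.card lam (Nat.cast_nonneg _) hlam0.le
      (fun i => (vec_norm I _).le) hω
    set x : EuclideanSpace ℂ {n // n ∈ I} := WithLp.toLp 2 (fun n => (starRingEnd ℂ) (a n.1)) with hx
    have hco : ∀ n ∈ I, co I x n = a n := by
      intro n hn
      unfold co
      rw [dif_pos hn]
      show (starRingEnd ℂ) ((starRingEnd ℂ) (a n)) = a n
      exact Complex.conj_conj _
    have hx2 : ‖x‖ ^ 2 = ∑ n ∈ I, ‖a n‖ ^ 2 := by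
      rw [← norm_co]
      exact sum_congr rfl fun n hn => by rw [hco n hn]
    have hxn : ‖x‖ = Real.sqrt (∑ n ∈ I, ‖a n‖ ^ 2) := by
      rw [← hx2, Real.sqrt_sq (norm_nonneg _)]
    have hV0 : 0 ≤ V := le_trans (by positivity) hV
    have h25 : 25 * lam * ‖x‖ ≤ V := by
      have e : 25 * lam = K * (N : ℝ) ^ ε := by rw [hlam]; ring
      rw [e, hxn]
      exact hV
    have hfin := large_values (fun i => v i (ω i)) I.card lam (Nat.cast_nonneg _)
      (fun W β hβ => hrec W.card W β rfl hβ) x V h25 hV0 W (by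
        intro i hi
        refine (hW i hi).trans (le_of_eq ?_)
        show _ = ‖(inner ℂ x (vec I (s i + ((ω i : ℕ) : ℝ))) : ℂ)‖
        rw [inner_vec]
        congr 1
        exact sum_congr rfl fun n hn => by rw [hco n hn])
    rw [hx2] at hfin
    exact hfin
  have hsub : (univ.filter (fun ω : ι → Fin L =>
        ¬ Good I (K * (N : ℝ) ^ ε) (fun i => s i + ((ω i : ℕ) : ℝ)))).card ≤
      (univ.filter (fun ω : ι → Fin L => ¬ Few v lam ω)).card := by
    apply card_le_card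
    intro ω hω
    rw [mem_filter] at hω ⊢
    exact ⟨hω.1, fun h => hω.2 (himp ω h)⟩
  refine le_trans (by exact_mod_cast hsub : _ ≤
    ((univ.filter (fun ω : ι → Fin L => ¬ Few v lam ω)).card : ℝ)) ?_
  rcases Nat.eq_zero_or_pos M with hM0 | hMpos
  · have h1 := union_bound v lam p 0 hp0 le_rfl zero_le_one (by
      rw [← hMd, hM0]; simp) hR
    refine h1.trans ?_
    have e : ((1 + 4 * (0:ℝ)) ^ Fintype.card ι - 1) * (L : ℝ) ^ Fintype.card ι = 0 := by simp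
    rw [e]
    positivity
  · have hM1 : (1 : ℝ) ≤ M := by exact_mod_cast hMpos
    have hM0 : (0 : ℝ) < M := by linarith
    set κ : ℝ := (N : ℝ) ^ (-A) / (8 * M) with hκ
    have hx0 : 0 < (N : ℝ) ^ (-A) := Real.rpow_pos_of_pos hN0 _
    have hx1 : (N : ℝ) ^ (-A) ≤ 1 := Real.rpow_le_one_of_one_le_of_nonpos hN1 (by linarith)
    have hκ0 : 0 ≤ κ := by positivity
    have hκ1 : κ ≤ 1 := by
      rw [hκ, div_le_one (by positivity)]
      linarith
    have h1 := union_bound v lam p κ hp0 hκ0 hκ1 (hpar N hN M hM1 hM) hR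
    refine h1.trans (mul_le_mul_of_nonneg_right ?_ (by positivity))
    have h2 : (1 + 4 * κ) ^ M ≤ Real.exp ((N : ℝ) ^ (-A) / 2) := by
      calc (1 + 4 * κ) ^ M ≤ (Real.exp (4 * κ)) ^ M := by
            apply pow_le_pow_left₀ (by positivity)
            have := Real.add_one_le_exp (4 * κ)
            linarith
        _ = Real.exp (M * (4 * κ)) := by rw [← Real.exp_nat_mul]
        _ = Real.exp ((N : ℝ) ^ (-A) / 2) := by
            congr 1
            rw [hκ]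
            field_simp
            ring
    have h3 : Real.exp ((N : ℝ) ^ (-A) / 2) ≤ 1 + (N : ℝ) ^ (-A) := by
      set x : ℝ := (N : ℝ) ^ (-A) with hx
      have h4 := Real.exp_bound_div_one_sub_of_interval (x := x / 2) (by positivity) (by linarith)
      refine h4.trans ?_
      rw [div_le_iff₀ (by linarith)]
      nlinarith
    linarith

end Pool.Agent.Y959.Her
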