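import Pool.Agent.Y959.Her.Comb

set_option autoImplicit false

/-!
# Counting in a finite product space
-/

namespace Pool.Agent.Y959.Her

open Finset

section prod

variable {ι : Type*} [Fintype ι] [DecidableEq ι] {L : ℕ}

/-- resampling one coordinate -/
theorem resample (f : (ι → Fin L) → ℝ) (i : ι) :
    ∑ ω : ι → Fin L, ∑ u : Fin L, f (Function.update ω i u) = L * ∑ ω : ι → Fin L, f ω := by
  have h1 : ∑ ω : ι → Fin L, ∑ u : Fin L, f (Function.update ω i u) =
      ∑ x : (ι → Fin L) × Fin L, f (Function.update x.1 i x.2) := by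
    rw [Fintype.sum_prod_type]
  have h2 : ∑ x : (ι → Fin L) × Fin L, f x.1 = L * ∑ ω : ι → Fin L, f ω := by
    rw [Fintype.sum_prod_type, mul_sum]
    apply sum_congr rfl
    intro ω _
    simp
  rw [h1, ← h2]
  refine sum_nbij' (fun x => (Function.update x.1 i x.2, x.1 i))
    (fun x => (Function.update x.1 i x.2, x.1 i)) ?_ ?_ ?_ ?_ ?_
  · intro x _; exact mem_univ _
  · intro x _; exact mem_univ _
  · intro x _; simp
  · intro x _; simp
  · intro x _; rfl

open Classical in
/-- independence: the coordinates in `Q` are independent of the data defining the conditions -/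
theorem prod_count (p : ℝ) (hp : 0 ≤ p) (Q : Finset ι) (R : ι → (ι → Fin L) → Fin L → Prop)
    (hind : ∀ i ∈ Q, ∀ j ∈ Q, ∀ ω u u', R j (Function.update ω i u) u' ↔ R j ω u')
    (hR : ∀ j ∈ Q, ∀ ω, ((univ.filter (fun u => R j ω u)).card : ℝ) ≤ p * L) :
    ((univ.filter (fun ω : ι → Fin L => ∀ j ∈ Q, R j ω (ω j))).card : ℝ) ≤
      p ^ Q.card * (L : ℝ) ^ Fintype.card ι := by
  induction Q using Finset.induction_on with
  | empty =>
    simp
  | insert i Q hi ih =>
    rcases Nat.eq_zero_or_pos L with hL | hL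
    · subst hL
      have : (univ.filter (fun ω : ι → Fin 0 => ∀ j ∈ insert i Q, R j ω (ω j))) = ∅ := by
        ext ω
        exact (ω i).elim0
      rw [this, card_empty]
      push_cast
      positivity
    have hL0 : (0 : ℝ) < L := by exact_mod_cast hL
    have ih' := ih (fun a ha b hb => hind a (mem_insert_of_mem ha) b (mem_insert_of_mem hb))
      (fun j hj => hR j (mem_insert_of_mem hj))
    set g : (ι → Fin L) → ℝ := fun ω => if ∀ j ∈ Q, R j ω (ω j) then 1 else 0 with hg
    set f : (ι → Fin L) → ℝ := fun ω => if ∀ j ∈ insert i Q, R j ω (ω j) then 1 else 0 with hf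
    have hcf : ((univ.filter (fun ω : ι → Fin L => ∀ j ∈ insert i Q, R j ω (ω j))).card : ℝ) =
        ∑ ω, f ω := by
      rw [hf, sum_boole]
    have hcg : ((univ.filter (fun ω : ι → Fin L => ∀ j ∈ Q, R j ω (ω j))).card : ℝ) =
        ∑ ω, g ω := by
      rw [hg, sum_boole]
    have hfu : ∀ ω u, f (Function.update ω i u) = g ω * (if R i ω u then 1 else 0) := by
      intro ω u
      have h1 : (∀ j ∈ insert i Q, R j (Function.update ω i u) (Function.update ω i u j)) ↔
          ((∀ j ∈ Q, R j ω (ω j)) ∧ R i ω u) := by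
        rw [forall_mem_insert]
        constructor
        · rintro ⟨h1, h2⟩
          refine ⟨fun j hj => ?_, ?_⟩
          · have h3 := h2 j hj
            have hji : j ≠ i := fun e => hi (e ▸ hj)
            rw [Function.update_of_ne hji] at h3
            exact (hind i (mem_insert_self _ _) j (mem_insert_of_mem hj) ω u _).1 h3
          · rw [Function.update_self] at h1
            exact (hind i (mem_insert_self _ _) i (mem_insert_self _ _) ω u _).1 h1
        · rintro ⟨h1, h2⟩
          refine ⟨?_, fun j hj => ?_⟩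
          · rw [Function.update_self]
            exact (hind i (mem_insert_self _ _) i (mem_insert_self _ _) ω u _).2 h2
          · have hji : j ≠ i := fun e => hi (e ▸ hj)
            rw [Function.update_of_ne hji]
            exact (hind i (mem_insert_self _ _) j (mem_insert_of_mem hj) ω u _).2 (h1 j hj)
      simp only [hf, hg, h1]
      by_cases h2 : ∀ j ∈ Q, R j ω (ω j)
      · by_cases h3 : R i ω u
        · simp [h2, h3]
        · simp only [h3, and_false, if_false, mul_zero]
      · rw [if_neg (fun h => h2 h.1), if_neg h2, zero_mul]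
    have h1 := resample f i
    have h2 : ∑ ω : ι → Fin L, ∑ u : Fin L, f (Function.update ω i u) ≤ ∑ ω, g ω * (p * L) := by
      apply sum_le_sum
      intro ω _
      have h3 : ∑ u : Fin L, f (Function.update ω i u) =
          g ω * ((univ.filter (fun u => R i ω u)).card : ℝ) := by
        rw [← sum_boole, mul_sum]
        exact sum_congr rfl fun u _ => hfu ω u
      rw [h3]
      apply mul_le_mul_of_nonneg_left (hR i (mem_insert_self _ _) ω)
      rw [hg]
      simp only
      split_ifs <;> norm_num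
    rw [h1, ← sum_mul, ← hcg] at h2
    rw [hcf, card_insert_of_notMem hi]
    have h4 : ∑ ω, f ω ≤ p * ((univ.filter (fun ω : ι → Fin L => ∀ j ∈ Q, R j ω (ω j))).card : ℝ) := by
      have : (L : ℝ) * ∑ ω, f ω ≤
          L * (p * ((univ.filter (fun ω : ι → Fin L => ∀ j ∈ Q, R j ω (ω j))).card : ℝ)) := by
        linarith
      exact le_of_mul_le_mul_left this hL0
    refine h4.trans ?_
    calc p * ((univ.filter (fun ω : ι → Fin L => ∀ j ∈ Q, R j ω (ω j))).card : ℝ)
        ≤ p * (p ^ Q.card * (L : ℝ) ^ Fintype.card ι) := mul_le_mul_of_nonneg_left ih' hp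
      _ = p ^ (Q.card + 1) * (L : ℝ) ^ Fintype.card ι := by ring

end prod

/-- the phases -/
noncomputable def phs : Fin 4 → ℂ := ![1, -1, Complex.I, -Complex.I]

theorem phs_isPh (k : Fin 4) : IsPh (phs k) := by
  fin_cases k <;> simp [phs, IsPh]

theorem exists_phs {z : ℂ} (h : IsPh z) : ∃ k, phs k = z := by
  rcases h with h | h | h | h
  · exact ⟨0, by simp [phs, h]⟩
  · exact ⟨1, by simp [phs, h]⟩
  · exact ⟨2, by simp [phs, h]⟩
  · exact ⟨3, by simp [phs, h]⟩

section union

variable {ι E : Type*} [Fintype ι] [DecidableEq ι] [NormedAddCommGroup E] [InnerProductSpace ℂ E]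
  {L : ℕ}

/-- the support of a code -/
def sup (c : ι → Option (Fin 4)) : Finset ι := univ.filter (fun i => (c i).isSome)

/-- the phases of a code -/
noncomputable def bet (c : ι → Option (Fin 4)) (i : ι) : ℂ :=
  match c i with
  | none => 1
  | some k => phs k

/-- the event that the vectors at `ω` have few exceptional scalar products -/
def Few (v : ι → Fin L → E) (lam : ℝ) (ω : ι → Fin L) : Prop :=
  ∀ (W : Finset ι) (β : ι → ℂ), W.Nonempty → (∀ i, IsPh (β i)) →
      ∀ Q : Finset ι, Disjoint Q W →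
        (∀ i ∈ Q, lam * ‖∑ j ∈ W, β j • v j (ω j)‖ <
          ‖(inner ℂ (∑ j ∈ W, β j • v j (ω j)) (v i (ω i)) : ℂ)‖) →
        64 * Q.card < W.card

/-- the condition for one code, one index -/
def Rel (v : ι → Fin L → E) (lam : ℝ) (c : ι → Option (Fin 4)) (i : ι) (ω : ι → Fin L) (u : Fin L) :
    Prop :=
  lam * ‖∑ j ∈ sup c, bet c j • v j (ω j)‖ <
    ‖(inner ℂ (∑ j ∈ sup c, bet c j • v j (ω j)) (v i u) : ℂ)‖

theorem Rel_update (v : ι → Fin L → E) (lam : ℝ) (c : ι → Option (Fin 4)) (i j : ι)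
    (hi : i ∉ sup c) (ω : ι → Fin L) (u u' : Fin L) :
    Rel v lam c j (Function.update ω i u) u' ↔ Rel v lam c j ω u' := by
  have h : ∑ k ∈ sup c, bet c k • v k (Function.update ω i u k) =
      ∑ k ∈ sup c, bet c k • v k (ω k) := by
    apply sum_congr rfl
    intro k hk
    have hki : k ≠ i := fun e => hi (by rw [← e]; exact hk)
    rw [Function.update_of_ne hki]
  unfold Rel
  rw [h]

/-- the number of exceptional indices which is excluded -/
def qq (c : ι → Option (Fin 4)) : ℕ := ((sup c).card + 63) / 64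

theorem not_few (v : ι → Fin L → E) (lam : ℝ) (ω : ι → Fin L) (h : ¬ Few v lam ω) :
    ∃ c : ι → Option (Fin 4), (sup c).Nonempty ∧
      ∃ Q : Finset ι, Q.card = qq c ∧ Disjoint Q (sup c) ∧ ∀ i ∈ Q, Rel v lam c i ω (ω i) := by
  classical
  unfold Few at h
  push Not at h
  obtain ⟨W, β, hW, hβ, Q, hd, hQ, hc⟩ := h
  choose k hk using fun i => exists_phs (hβ i)
  set c : ι → Option (Fin 4) := fun i => if i ∈ W then some (k i) else none with hcdef
  have hsup : sup c = W := by
    ext i
    unfold sup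
    rw [mem_filter, hcdef]
    simp only [mem_univ, true_and]
    split_ifs with hi <;> simp [hi]
  have hY : ∑ j ∈ sup c, bet c j • v j (ω j) = ∑ j ∈ W, β j • v j (ω j) := by
    rw [hsup]
    apply sum_congr rfl
    intro j hj
    have : bet c j = β j := by
      unfold bet
      have : c j = some (k j) := by rw [hcdef]; simp [hj]
      rw [this]
      exact hk j
    rw [this]
  have hq : qq c ≤ Q.card := by
    unfold qq
    rw [hsup]
    omega
  obtain ⟨Q', hQ', hQc⟩ := exists_subset_card_eq hq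
  refine ⟨c, by rw [hsup]; exact hW, Q', hQc, ?_, ?_⟩
  · rw [hsup]
    exact disjoint_of_subset_left hQ' hd
  · intro i hi
    unfold Rel
    rw [hY]
    exact hQ i (hQ' hi)

open Classical in
theorem bad_one (v : ι → Fin L → E) (lam p κ : ℝ) (hp : 0 ≤ p) (hκ : 0 ≤ κ) (hκ1 : κ ≤ 1)
    (hpκ : (Fintype.card ι : ℝ) * p ≤ κ ^ 64)
    (hR : ∀ (i : ι) (y : E), ((univ.filter (fun u : Fin L =>
      lam * ‖y‖ < ‖(inner ℂ y (v i u) : ℂ)‖)).card : ℝ) ≤ p * L) (c : ι → Option (Fin 4)) :
    ((univ.filter (fun ω : ι → Fin L => ∃ Q : Finset ι, Q.card = qq c ∧ Disjoint Q (sup c) ∧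
      ∀ i ∈ Q, Rel v lam c i ω (ω i))).card : ℝ) ≤ κ ^ (sup c).card * (L : ℝ) ^ Fintype.card ι := by
  have hsub : (univ.filter (fun ω : ι → Fin L => ∃ Q : Finset ι, Q.card = qq c ∧ Disjoint Q (sup c) ∧
      ∀ i ∈ Q, Rel v lam c i ω (ω i))) ⊆
      ((powersetCard (qq c) (univ : Finset ι)).filter (fun Q => Disjoint Q (sup c))).biUnion
        (fun Q => univ.filter (fun ω : ι → Fin L => ∀ i ∈ Q, Rel v lam c i ω (ω i))) := by
    intro ω hω
    rw [mem_filter] at hω
    obtain ⟨Q, h1, h2, h3⟩ := hω.2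
    rw [mem_biUnion]
    refine ⟨Q, mem_filter.2 ⟨mem_powersetCard.2 ⟨subset_univ _, h1⟩, h2⟩, mem_filter.2 ⟨mem_univ _, h3⟩⟩
  have h1 : ((univ.filter (fun ω : ι → Fin L => ∃ Q : Finset ι, Q.card = qq c ∧ Disjoint Q (sup c) ∧
      ∀ i ∈ Q, Rel v lam c i ω (ω i))).card : ℝ) ≤
      ∑ Q ∈ (powersetCard (qq c) (univ : Finset ι)).filter (fun Q => Disjoint Q (sup c)),
        ((univ.filter (fun ω : ι → Fin L => ∀ i ∈ Q, Rel v lam c i ω (ω i))).card : ℝ) := by
    exact_mod_cast (card_le_card hsub).trans card_biUnion_le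
  refine h1.trans ?_
  have h2 : ∀ Q ∈ (powersetCard (qq c) (univ : Finset ι)).filter (fun Q => Disjoint Q (sup c)),
      ((univ.filter (fun ω : ι → Fin L => ∀ i ∈ Q, Rel v lam c i ω (ω i))).card : ℝ) ≤
        p ^ (qq c) * (L : ℝ) ^ Fintype.card ι := by
    intro Q hQ
    rw [mem_filter, mem_powersetCard] at hQ
    rw [← hQ.1.2]
    refine prod_count p hp Q (fun i ω u => Rel v lam c i ω u) ?_ ?_
    · intro i hi j _ ω u u'
      exact Rel_update v lam c i j (fun h => (disjoint_left.1 hQ.2) hi h) ω u u'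
    · intro j _ ω
      exact hR j _
  refine (sum_le_sum h2).trans ?_
  rw [sum_const, nsmul_eq_mul]
  have h3 : ((((powersetCard (qq c) (univ : Finset ι)).filter (fun Q => Disjoint Q (sup c))).card : ℕ) : ℝ)
      ≤ (Fintype.card ι : ℝ) ^ (qq c) := by
    have : ((powersetCard (qq c) (univ : Finset ι)).filter (fun Q => Disjoint Q (sup c))).card ≤
        (Fintype.card ι) ^ (qq c) := by
      refine (card_filter_le _ _).trans ?_
      rw [card_powersetCard, card_univ]
      exact Nat.choose_le_pow _ _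
    exact_mod_cast this
  have hL : (0 : ℝ) ≤ (L : ℝ) ^ Fintype.card ι := by positivity
  calc ((((powersetCard (qq c) (univ : Finset ι)).filter (fun Q => Disjoint Q (sup c))).card : ℕ) : ℝ) *
        (p ^ (qq c) * (L : ℝ) ^ Fintype.card ι)
      ≤ (Fintype.card ι : ℝ) ^ (qq c) * (p ^ (qq c) * (L : ℝ) ^ Fintype.card ι) :=
        mul_le_mul_of_nonneg_right h3 (by positivity)
    _ = ((Fintype.card ι : ℝ) * p) ^ (qq c) * (L : ℝ) ^ Fintype.card ι := by rw [mul_pow]; ring
    _ ≤ (κ ^ 64) ^ (qq c) * (L : ℝ) ^ Fintype.card ι := by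
        apply mul_le_mul_of_nonneg_right _ hL
        exact pow_le_pow_left₀ (by positivity) hpκ _
    _ ≤ κ ^ (sup c).card * (L : ℝ) ^ Fintype.card ι := by
        apply mul_le_mul_of_nonneg_right _ hL
        rw [← pow_mul]
        apply pow_le_pow_of_le_one hκ hκ1
        unfold qq
        omega

theorem sum_codes (κ : ℝ) :
    ∑ c : ι → Option (Fin 4), κ ^ (sup c).card = (1 + 4 * κ) ^ Fintype.card ι := by
  classical
  have h1 : ∀ c : ι → Option (Fin 4), κ ^ (sup c).card =
      ∏ i, (if (c i).isSome then κ else 1) := by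
    intro c
    rw [prod_ite, prod_const, prod_const_one, mul_one]
    rfl
  have h2 : ∏ _i : ι, ∑ x : Option (Fin 4), (if x.isSome then κ else (1:ℝ)) =
      (1 + 4 * κ) ^ Fintype.card ι := by
    have h3 : ∑ x : Option (Fin 4), (if x.isSome then κ else (1:ℝ)) = 1 + 4 * κ := by
      rw [Fintype.sum_option]
      simp
    rw [h3, prod_const, card_univ]
  rw [← h2, prod_univ_sum, Fintype.piFinset_univ]
  exact sum_congr rfl fun c _ => h1 c

open Classical in
/-- **The union bound.** -/
theorem union_bound (v : ι → Fin L → E) (lam p κ : ℝ) (hp : 0 ≤ p) (hκ : 0 ≤ κ) (hκ1 : κ ≤ 1)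
    (hpκ : (Fintype.card ι : ℝ) * p ≤ κ ^ 64)
    (hR : ∀ (i : ι) (y : E), ((univ.filter (fun u : Fin L =>
      lam * ‖y‖ < ‖(inner ℂ y (v i u) : ℂ)‖)).card : ℝ) ≤ p * L) :
    ((univ.filter (fun ω : ι → Fin L => ¬ Few v lam ω)).card : ℝ) ≤
      ((1 + 4 * κ) ^ Fintype.card ι - 1) * (L : ℝ) ^ Fintype.card ι := by
  set B : (ι → Option (Fin 4)) → Finset (ι → Fin L) := fun c =>
    univ.filter (fun ω : ι → Fin L => ∃ Q : Finset ι, Q.card = qq c ∧ Disjoint Q (sup c) ∧
      ∀ i ∈ Q, Rel v lam c i ω (ω i)) with hB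
  set c0 : ι → Option (Fin 4) := fun _ => none with hc0
  have hsup0 : sup c0 = ∅ := by
    unfold sup
    simp [hc0]
  have hsub : (univ.filter (fun ω : ι → Fin L => ¬ Few v lam ω)) ⊆
      (univ.erase c0).biUnion B := by
    intro ω hω
    obtain ⟨c, h1, Q, h2, h3, h4⟩ := not_few v lam ω (mem_filter.1 hω).2
    rw [mem_biUnion]
    refine ⟨c, mem_erase.2 ⟨?_, mem_univ _⟩, mem_filter.2 ⟨mem_univ _, Q, h2, h3, h4⟩⟩
    intro e
    rw [e, hsup0] at h1
    exact not_nonempty_empty h1
  have h1 : ((univ.filter (fun ω : ι → Fin L => ¬ Few v lam ω)).card : ℝ) ≤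
      ∑ c ∈ univ.erase c0, ((B c).card : ℝ) := by
    exact_mod_cast (card_le_card hsub).trans card_biUnion_le
  refine h1.trans ((sum_le_sum fun c _ => bad_one v lam p κ hp hκ hκ1 hpκ hR c).trans ?_)
  rw [← sum_mul]
  apply mul_le_mul_of_nonneg_right _ (by positivity)
  have h2 := sum_erase_add univ (fun c : ι → Option (Fin 4) => κ ^ (sup c).card) (mem_univ c0)
  rw [sum_codes, hsup0, card_empty, pow_zero] at h2
  linarith

end union

end Pool.Agent.Y959.Her
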